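import Pool.Agent.helper80.MV.Defs

/-!
# MV-4b (ColB): edges and bicoloured pairs

PROOF.  `two_bi_le`: the pairs `(w, l, m)` counted in `bi` (`l`, `m` through `w` with colours `true`,
`false`) give injectively ordered adjacent pairs `(l, m)` (two lines meet in at most one point), and
the reversed pairs `(m, l)` are different from all of them.
-/

set_option autoImplicit false

namespace Pool.Agent.helper80.MV

open Finset

variable {L P : Type} [Fintype L] [Fintype P]

theorem two_bi_le (I : L → P → Prop)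
    (h : ∀ l m w w', l ≠ m → I l w → I m w → I l w' → I m w' → w = w') (c : P → L → Bool)
    (X : Finset L) : 2 * bi I c X ≤ ed (gr I c) X := by
  classical
  -- the set of adjacent ordered pairs
  have hE : ed (gr I c) X = ((X ×ˢ X).filter fun q : L × L => (gr I c).Adj q.1 q.2).card := by
    rw [Finset.card_filter, Finset.sum_product]
    unfold ed dg
    refine Finset.sum_congr rfl fun x _ => ?_
    rw [Finset.card_filter]
  set T : Finset (Σ _ : P, L × L) := (Finset.univ : Finset P).sigma fun w =>
    (X.filter fun l => I l w ∧ c w l = true) ×ˢ (X.filter fun l => I l w ∧ c w l = false) with hT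
  have hB : bi I c X = T.card := by
    rw [hT, Finset.card_sigma]
    unfold bi cc
    refine Finset.sum_congr rfl fun w _ => ?_
    rw [Finset.card_product]
  have hmem : ∀ t ∈ T, t.2.1 ∈ X ∧ t.2.2 ∈ X ∧ I t.2.1 t.1 ∧ I t.2.2 t.1 ∧ c t.1 t.2.1 = true ∧
      c t.1 t.2.2 = false := by
    intro t ht
    rw [hT, Finset.mem_sigma, Finset.mem_product, Finset.mem_filter, Finset.mem_filter] at ht
    exact ⟨ht.2.1.1, ht.2.2.1, ht.2.1.2.1, ht.2.2.2.1, ht.2.1.2.2, ht.2.2.2.2⟩
  have hne : ∀ t ∈ T, t.2.1 ≠ t.2.2 := by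
    intro t ht he
    obtain ⟨-, -, -, -, h1, h2⟩ := hmem t ht
    rw [he] at h1
    rw [h1] at h2
    exact absurd h2 (by simp)
  have hinj : Set.InjOn (fun t : (Σ _ : P, L × L) => t.2) T := by
    intro t ht s hs hts
    have hts' : t.2 = s.2 := hts
    obtain ⟨w, q⟩ := t
    obtain ⟨w', q'⟩ := s
    simp only at hts'
    subst hts'
    have h1 := hmem _ ht
    have h2 := hmem _ hs
    have : w = w' := h q.1 q.2 w w' (hne _ ht) h1.2.2.1 h1.2.2.2.1 h2.2.2.1 h2.2.2.2.1
    subst this
    rfl
  have hinj' : Set.InjOn (fun t : (Σ _ : P, L × L) => t.2.swap) T := by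
    intro t ht s hs hts
    exact hinj ht hs (Prod.swap_injective hts)
  set D : Finset (L × L) := T.image fun t => t.2 with hD
  set D' : Finset (L × L) := T.image fun t => t.2.swap with hD'
  have hcD : D.card = T.card := Finset.card_image_of_injOn hinj
  have hcD' : D'.card = T.card := Finset.card_image_of_injOn hinj'
  have hdis : Disjoint D D' := by
    rw [Finset.disjoint_left]
    intro q hq hq'
    rw [hD, Finset.mem_image] at hq
    rw [hD', Finset.mem_image] at hq'
    obtain ⟨t, ht, rfl⟩ := hq
    obtain ⟨s, hs, hst⟩ := hq'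
    have h1 := hmem t ht
    have h2 := hmem s hs
    have e1 : s.2.2 = t.2.1 := congrArg Prod.fst hst
    have e2 : s.2.1 = t.2.2 := congrArg Prod.snd hst
    have hw : s.1 = t.1 := by
      refine h t.2.1 t.2.2 s.1 t.1 (hne t ht) ?_ ?_ h1.2.2.1 h1.2.2.2.1
      · rw [← e1]; exact h2.2.2.2.1
      · rw [← e2]; exact h2.2.2.1
    have h3 := h1.2.2.2.2.1
    have h4 := h2.2.2.2.2.2
    rw [e1, hw, h3] at h4
    exact absurd h4 (by simp)
  rw [hB, hE]
  calc 2 * T.card = (D ∪ D').card := by
        rw [Finset.card_union_of_disjoint hdis, hcD, hcD']; ring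
    _ ≤ _ := by
        refine Finset.card_le_card ?_
        intro q hq
        rw [Finset.mem_filter, Finset.mem_product]
        rcases Finset.mem_union.1 hq with hq | hq
        · rw [hD, Finset.mem_image] at hq
          obtain ⟨t, ht, rfl⟩ := hq
          have h1 := hmem t ht
          refine ⟨⟨h1.1, h1.2.1⟩, hne t ht, t.1, h1.2.2.1, h1.2.2.2.1, ?_⟩
          rw [h1.2.2.2.2.1, h1.2.2.2.2.2]
          simp
        · rw [hD', Finset.mem_image] at hq
          obtain ⟨t, ht, rfl⟩ := hq
          have h1 := hmem t ht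
          refine ⟨⟨h1.2.1, h1.1⟩, (hne t ht).symm, t.1, h1.2.2.2.1, h1.2.2.1, ?_⟩
          simp only [Prod.fst_swap, Prod.snd_swap]
          rw [h1.2.2.2.2.1, h1.2.2.2.2.2]
          simp

end Pool.Agent.helper80.MV
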