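import Pool.Agent.helper80.MV.Defs

/-!
# MV-4a (Color): the average over the colourings

PROOFS.  `half_mul_le`: if `a = 0` or `b = 0` trivial, otherwise `a b ≥ a`.
`one_point`: `(1/2) ^ (a b) ≤ (1/2) ^ a + (1/2) ^ b` with `a`, `b` the numbers of lines of `X`
through `w` of colour `true`, `false`; `∑_f (1/2) ^ a(f) = ∏_l ∑_{b : Bool} (1/2) ^ [l ∈ X, l ∋ w, b]`
`= 2 ^ |L| (3/4) ^ d` (`Finset.prod_univ_sum` / `Fintype.piFinset_univ`; the factors are `3/2` and `2`).
`color_avg`: `∑_c ∏_w g w (c w) = ∏_w ∑_f g w f` with `g w f = (1/2) ^ (cc .. true * cc .. false)`.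
-/

set_option autoImplicit false

namespace Pool.Agent.helper80.MV

open Finset

variable {L P : Type} [Fintype L] [Fintype P]

omit [Fintype L] [Fintype P] in
theorem half_mul_le (a b : ℕ) : (1 / 2 : ℝ) ^ (a * b) ≤ (1 / 2) ^ a + (1 / 2) ^ b := by
  have hpos : ∀ n : ℕ, 0 < (1 / 2 : ℝ) ^ n := fun n => by positivity
  rcases Nat.eq_zero_or_pos a with rfl | ha
  · rw [Nat.zero_mul, pow_zero]
    linarith [hpos b]
  rcases Nat.eq_zero_or_pos b with rfl | hb
  · rw [Nat.mul_zero, pow_zero]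
    linarith [hpos a]
  · have h1 : (1 / 2 : ℝ) ^ (a * b) ≤ (1 / 2) ^ a :=
      pow_le_pow_of_le_one (by norm_num) (by norm_num) (Nat.le_mul_of_pos_right a hb)
    linarith [hpos b]

theorem Color_sum_prod {ι κ : Type} [Fintype ι] [DecidableEq ι] [Fintype κ] (g : ι → κ → ℝ) :
    ∑ f : ι → κ, ∏ i, g i (f i) = ∏ i, ∑ k, g i k := by
  rw [Finset.prod_univ_sum, Fintype.piFinset_univ]

theorem Color_prod_ite {ι : Type} [Fintype ι] [DecidableEq ι] (S : Finset ι) (a : ℝ) :
    ∏ i, (if i ∈ S then a else 1) = a ^ S.card := by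
  rw [Finset.prod_ite_mem, Finset.univ_inter, Finset.prod_const]

open Classical in
theorem Color_one (I : L → P → Prop) (X : Finset L) (w : P) (b : Bool) :
    ∑ f : L → Bool, (1 / 2 : ℝ) ^ cc I X w f b = 2 ^ Fintype.card L * (3 / 4) ^ dp I X w := by
  have h1 : ∀ f : L → Bool, (1 / 2 : ℝ) ^ cc I X w f b
      = ∏ l, (if (l ∈ X ∧ I l w) ∧ f l = b then (1 / 2 : ℝ) else 1) := by
    intro f
    unfold cc
    rw [← Color_prod_ite]
    refine Finset.prod_congr rfl fun l _ => ?_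
    by_cases h : l ∈ X ∧ I l w ∧ f l = b
    · rw [if_pos (Finset.mem_filter.2 h), if_pos ⟨⟨h.1, h.2.1⟩, h.2.2⟩]
    · rw [if_neg (fun h' => h (Finset.mem_filter.1 h')), if_neg (fun h' => h ⟨h'.1.1, h'.1.2, h'.2⟩)]
  rw [Finset.sum_congr rfl fun f _ => h1 f,
    Color_sum_prod (fun (l : L) (β : Bool) => if (l ∈ X ∧ I l w) ∧ β = b then (1 / 2 : ℝ) else 1)]
  have h2 : ∀ l : L, (∑ β : Bool, (if (l ∈ X ∧ I l w) ∧ β = b then (1 / 2 : ℝ) else 1))
      = 2 * (if l ∈ X.filter (fun l => I l w) then (3 / 4 : ℝ) else 1) := by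
    intro l
    rw [Fintype.sum_bool]
    by_cases h : l ∈ X ∧ I l w
    · rw [if_pos (Finset.mem_filter.2 h)]
      cases b <;> simp [h] <;> norm_num
    · rw [if_neg (fun h' => h (Finset.mem_filter.1 h')), if_neg (fun h' => h h'.1),
        if_neg (fun h' => h h'.1)]
      norm_num
  rw [Finset.prod_congr rfl fun l _ => h2 l, Finset.prod_mul_distrib, Finset.prod_const,
    Color_prod_ite, Finset.card_univ]
  rfl

open Classical in
theorem one_point (I : L → P → Prop) (X : Finset L) (w : P) :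
    ∑ f : L → Bool, (1 / 2 : ℝ) ^ (cc I X w f true * cc I X w f false) ≤
      2 ^ Fintype.card L * (2 * (3 / 4) ^ dp I X w) := by
  calc ∑ f : L → Bool, (1 / 2 : ℝ) ^ (cc I X w f true * cc I X w f false)
      ≤ ∑ f : L → Bool, ((1 / 2 : ℝ) ^ cc I X w f true + (1 / 2) ^ cc I X w f false) :=
        Finset.sum_le_sum fun f _ => half_mul_le _ _
    _ = 2 ^ Fintype.card L * (2 * (3 / 4) ^ dp I X w) := by
        rw [Finset.sum_add_distrib, Color_one, Color_one]
        ring

open Classical in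
theorem color_avg (I : L → P → Prop) (X : Finset L) :
    ∑ c : P → L → Bool, (1 / 2 : ℝ) ^ bi I c X ≤
      2 ^ (Fintype.card P * Fintype.card L) * (2 ^ Fintype.card P * (3 / 4) ^ ∑ w, dp I X w) := by
  have h1 : ∀ c : P → L → Bool, (1 / 2 : ℝ) ^ bi I c X
      = ∏ w, (1 / 2 : ℝ) ^ (cc I X w (c w) true * cc I X w (c w) false) := by
    intro c
    unfold bi
    rw [Finset.prod_pow_eq_pow_sum]
  rw [Finset.sum_congr rfl fun c _ => h1 c,
    Color_sum_prod (fun (w : P) (f : L → Bool) =>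
      (1 / 2 : ℝ) ^ (cc I X w f true * cc I X w f false))]
  calc ∏ w, ∑ f : L → Bool, (1 / 2 : ℝ) ^ (cc I X w f true * cc I X w f false)
      ≤ ∏ w, (2 ^ Fintype.card L * (2 * (3 / 4) ^ dp I X w)) :=
        Finset.prod_le_prod (fun w _ => Finset.sum_nonneg fun f _ => by positivity)
          (fun w _ => one_point I X w)
    _ = 2 ^ (Fintype.card P * Fintype.card L)
          * (2 ^ Fintype.card P * (3 / 4) ^ ∑ w, dp I X w) := by
        rw [Finset.prod_mul_distrib, Finset.prod_mul_distrib, Finset.prod_const, Finset.prod_const,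
          Finset.prod_pow_eq_pow_sum, Finset.card_univ, ← pow_mul,
          mul_comm (Fintype.card L) (Fintype.card P)]

end Pool.Agent.helper80.MV
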