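import Mathlib

/-!
# MV project (MP_d3024b_co): `r(4,n) ≥ c n³ / (log n)⁴` (Mattheus and Verstraete), elementary version

`K` is the field with `p²` elements, conjugation is `x ↦ x ^ p`.  The vectors `(x, y, 1)` of `K³` with
the Hermitian form `h((x,y),(x',y')) = x + y y'^p + x'^p`: `Pt` are the isotropic ones (points of the
Hermitian unital), `Ln` the other ones; `Ln` stands for lines (a line is the orthogonal of such a
vector).  Each line has `p + 1` points, two lines meet in at most one point, and among four lines
which meet pairwise there are three through the same point (O'Nan).  For every point the lines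
through it are coloured with two colours at random; two lines are adjacent if they meet in a point
where they have different colours (`gr`).  This graph has no `K₄`, every set of `16 p²` lines spans
at least `p³` edges (for a suitable colouring), so there are few independent sets of size `p k`
(Kleitman-Winston), and deleting vertices gives the result.
-/

set_option autoImplicit false

namespace Pool.Agent.helper80.MV

open Finset

/-! ### The unital in coordinates -/

section field

variable (p : ℕ) [Fact p.Prime]

/-- The field with `p ^ 2` elements. -/
abbrev K : Type := GaloisField p 2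

noncomputable instance instFintypeK : Fintype (K p) := Fintype.ofFinite _

noncomputable instance instDecEqK : DecidableEq (K p) := Classical.decEq _

/-- The trace `x + x ^ p`. -/
noncomputable def tr (x : K p) : K p := x + x ^ p

/-- The norm `x * x ^ p`. -/
noncomputable def nm (x : K p) : K p := x * x ^ p

/-- The lines. -/
abbrev Ln : Type := {v : K p × K p // tr p v.1 + nm p v.2 ≠ 0}

/-- The points. -/
abbrev Pt : Type := {v : K p × K p // tr p v.1 + nm p v.2 = 0}

/-- Incidence. -/
def inc (l : Ln p) (w : Pt p) : Prop := l.1.1 + l.1.2 * w.1.2 ^ p + w.1.1 ^ p = 0

end field

/-! ### Coloured incidence structures -/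

section general

variable {L P V : Type}

/-- Two different lines are adjacent if they meet in a point in which they have different colours. -/
def gr (I : L → P → Prop) (c : P → L → Bool) : SimpleGraph L where
  Adj l m := l ≠ m ∧ ∃ w, I l w ∧ I m w ∧ c w l ≠ c w m
  symm := ⟨fun _ _ h => ⟨h.1.symm, h.2.imp fun _ h' => ⟨h'.2.1, h'.1, h'.2.2.symm⟩⟩⟩
  loopless := ⟨fun _ h => h.1 rfl⟩

open Classical in
/-- The number of neighbours of `x` in `A`. -/
noncomputable def dg (G : SimpleGraph V) (A : Finset V) (x : V) : ℕ :=
  (A.filter fun y => G.Adj x y).card

/-- The number of ordered pairs of adjacent vertices of `A`. -/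
noncomputable def ed (G : SimpleGraph V) (A : Finset V) : ℕ := ∑ x ∈ A, dg G A x

open Classical in
/-- The number of lines of `X` through the point `w`. -/
noncomputable def dp (I : L → P → Prop) (X : Finset L) (w : P) : ℕ := (X.filter fun l => I l w).card

open Classical in
/-- The number of lines of `X` through `w` with colour `b` in `f`. -/
noncomputable def cc (I : L → P → Prop) (X : Finset L) (w : P) (f : L → Bool) (b : Bool) : ℕ :=
  (X.filter fun l => I l w ∧ f l = b).card

/-- The number of pairs of lines of `X` with the colours `true`, `false` in a common point. -/
noncomputable def bi [Fintype P] (I : L → P → Prop) (c : P → L → Bool) (X : Finset L) : ℕ :=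
  ∑ w, cc I X w (c w) true * cc I X w (c w) false

/-- `S` is an independent set of `G`. -/
def Ind (G : SimpleGraph V) (S : Finset V) : Prop := ∀ x ∈ S, ∀ y ∈ S, ¬ G.Adj x y

open Classical in
/-- The independent subsets of `A`, weighted by `z ^ size`. -/
noncomputable def isum (G : SimpleGraph V) (A : Finset V) (z : ℝ) : ℝ :=
  ∑ S ∈ A.powerset.filter (fun S => Ind G S), z ^ S.card

end general

end Pool.Agent.helper80.MV
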