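import Pool.Agent.helper80.MV.Defs

/-!
# MV-6 (Dense): from sets of size `R` to larger sets

PROOFS.  `sum_erase`: the ordered adjacent pair `(x, y)` is counted in `ed G (A \ v)` for all `v`
different from `x`, `y`; or `ed G (A \ v) = ed G A - 2 dg G A v` for `v ∈ A`, and sum over `v`.
`dense`: induction on `|A|`: `(|A| - 2) ed A = ∑_v ed (A \ v)` and the hypothesis for the sets
`A \ v`.
`exists_deg`: choose `x ∈ A` with the largest `dg`, then
`2 M |A| (|A|-1) ≤ ed A R (R-1) ≤ |A| dg x R (R-1)`, hence `2 M (|A| - 1) ≤ dg x R²`, and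
`2 (|A| - 1) ≥ |A|`.
-/

set_option autoImplicit false

namespace Pool.Agent.helper80.MV

open Finset

variable {V : Type}

open Classical in
theorem ed_erase (G : SimpleGraph V) (A : Finset V) (v : V) (hv : v ∈ A) :
    ed G (A.erase v) + 2 * dg G A v = ed G A := by
  have h1 : ∀ x, dg G (A.erase v) x + (if G.Adj x v then 1 else 0) = dg G A x := by
    intro x
    unfold dg
    rw [Finset.filter_erase]
    split_ifs with h
    · exact Finset.card_erase_add_one (by simp [hv, h])
    · rw [Finset.erase_eq_of_notMem (by simp [h]), Nat.add_zero]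
  have h2 : ∑ x ∈ A, (if G.Adj x v then 1 else 0) = dg G A v := by
    unfold dg
    rw [Finset.card_filter]
    apply Finset.sum_congr rfl
    intro x _
    simp [G.adj_comm]
  have h3 : dg G (A.erase v) v = dg G A v := by
    have := h1 v
    simpa using this
  have h4 : ed G (A.erase v) + dg G (A.erase v) v = ∑ x ∈ A, dg G (A.erase v) x := by
    unfold ed
    exact Finset.sum_erase_add _ _ hv
  have h5 : ∑ x ∈ A, dg G (A.erase v) x + ∑ x ∈ A, (if G.Adj x v then 1 else 0) = ed G A := by
    rw [← Finset.sum_add_distrib]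
    unfold ed
    exact Finset.sum_congr rfl fun x _ => h1 x
  omega

open Classical in
theorem sum_erase (G : SimpleGraph V) (A : Finset V) :
    ∑ v ∈ A, ed G (A.erase v) + 2 * ed G A = A.card * ed G A := by
  have h : ∑ v ∈ A, (ed G (A.erase v) + 2 * dg G A v) = ∑ v ∈ A, ed G A :=
    Finset.sum_congr rfl fun v hv => ed_erase G A v hv
  rw [Finset.sum_add_distrib, ← Finset.mul_sum, Finset.sum_const, smul_eq_mul] at h
  exact h

theorem dense (G : SimpleGraph V) (R M : ℕ) (hR : 2 ≤ R)
    (h : ∀ X : Finset V, X.card = R → M ≤ ed G X) (A : Finset V) (hA : R ≤ A.card) :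
    M * (A.card * (A.card - 1)) ≤ ed G A * (R * (R - 1)) := by
  classical
  obtain ⟨n, hn⟩ : ∃ n, A.card = R + n := ⟨A.card - R, by omega⟩
  induction n generalizing A with
  | zero =>
    have : A.card = R := by omega
    rw [this]
    exact Nat.mul_le_mul_right _ (h A this)
  | succ n ih =>
    have hs := sum_erase G A
    have h1 : ∀ v ∈ A, M * ((R + n) * (R + n - 1)) ≤ ed G (A.erase v) * (R * (R - 1)) := by
      intro v hv
      have hc : (A.erase v).card = R + n := by rw [Finset.card_erase_of_mem hv]; omega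
      have := ih (A.erase v) (by omega) hc
      rwa [hc] at this
    have h2 : A.card * (M * ((R + n) * (R + n - 1))) ≤
        (∑ v ∈ A, ed G (A.erase v)) * (R * (R - 1)) := by
      rw [Finset.sum_mul, ← smul_eq_mul, ← Finset.sum_const]
      exact Finset.sum_le_sum h1
    obtain ⟨r, rfl⟩ : ∃ r, R = r + 2 := ⟨R - 2, by omega⟩
    have e1 : r + 2 + n - 1 = r + n + 1 := by omega
    have e2 : r + 2 - 1 = r + 1 := by omega
    have e3 : r + 2 + (n + 1) - 1 = r + n + 2 := by omega
    rw [e1, e2, hn] at h2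
    rw [hn] at hs
    rw [hn, e2, e3]
    have h3 : ∑ v ∈ A, ed G (A.erase v) = (r + n + 1) * ed G A := by
      have : (r + 2 + (n + 1)) * ed G A = (r + n + 1) * ed G A + 2 * ed G A := by ring
      omega
    rw [h3] at h2
    have h4 : (r + n + 1) * (M * ((r + 2 + (n + 1)) * (r + n + 2))) ≤
        (r + n + 1) * (ed G A * ((r + 2) * (r + 1))) := by
      calc (r + n + 1) * (M * ((r + 2 + (n + 1)) * (r + n + 2)))
          = (r + 2 + (n + 1)) * (M * ((r + 2 + n) * (r + n + 1))) := by ring
        _ ≤ (r + n + 1) * ed G A * ((r + 2) * (r + 1)) := h2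
        _ = (r + n + 1) * (ed G A * ((r + 2) * (r + 1))) := by ring
    exact Nat.le_of_mul_le_mul_left h4 (by omega)

theorem exists_deg (G : SimpleGraph V) (R M : ℕ) (hR : 2 ≤ R)
    (h : ∀ X : Finset V, X.card = R → 2 * M ≤ ed G X) (A : Finset V) (hA : R ≤ A.card) :
    ∃ x ∈ A, M * A.card ≤ dg G A x * R ^ 2 := by
  have hne : A.Nonempty := Finset.card_pos.mp (by omega)
  obtain ⟨x, hx, hmax⟩ := Finset.exists_max_image A (fun x => dg G A x) hne
  refine ⟨x, hx, ?_⟩
  have h1 := dense G R (2 * M) hR h A hA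
  have h2 : ed G A ≤ A.card * dg G A x := by
    unfold ed
    rw [← smul_eq_mul, ← Finset.sum_const]
    exact Finset.sum_le_sum fun y hy => hmax y hy
  obtain ⟨a, ha⟩ : ∃ a, A.card = a + 1 := ⟨A.card - 1, by omega⟩
  have ha1 : 1 ≤ a := by omega
  have h3 : 2 * M * (A.card * (A.card - 1)) ≤ A.card * (dg G A x * (R * (R - 1))) := by
    calc 2 * M * (A.card * (A.card - 1)) ≤ ed G A * (R * (R - 1)) := h1
      _ ≤ A.card * dg G A x * (R * (R - 1)) := Nat.mul_le_mul_right _ h2
      _ = A.card * (dg G A x * (R * (R - 1))) := by ring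
  have h4 : 2 * M * (A.card - 1) ≤ dg G A x * (R * (R - 1)) := by
    have h5 : A.card * (2 * M * (A.card - 1)) ≤ A.card * (dg G A x * (R * (R - 1))) := by
      calc A.card * (2 * M * (A.card - 1)) = 2 * M * (A.card * (A.card - 1)) := by ring
        _ ≤ _ := h3
    exact Nat.le_of_mul_le_mul_left h5 (by omega)
  have h6 : R * (R - 1) ≤ R ^ 2 := by
    rw [pow_two]; exact Nat.mul_le_mul_left _ (by omega)
  have h7 : M * A.card ≤ 2 * M * (A.card - 1) := by
    rw [ha]
    have : a + 1 - 1 = a := by omega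
    rw [this]
    nlinarith
  calc M * A.card ≤ 2 * M * (A.card - 1) := h7
    _ ≤ dg G A x * (R * (R - 1)) := h4
    _ ≤ dg G A x * R ^ 2 := Nat.mul_le_mul_left _ h6

end Pool.Agent.helper80.MV
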