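import Pool.Agent.helper80.MV.Defs

/-!
# MV-1 (Fld): the field with `p²` elements

PROOFS.  `x ^ (p ^ 2) = x` (`FiniteField.pow_card`, `GaloisField.card`).  `nm_fiber`: put
`F = {r | r ≠ 0 ∧ r ^ p = r}`; `F` has at most `p - 1` elements (roots of `X ^ (p-1) - 1`), the norm
maps the `p² - 1` nonzero elements into `F`, and each fibre has at most `p + 1` elements (roots of
`X ^ (p+1) - r`); as `p² - 1 = (p - 1) (p + 1)`, every fibre over `F` has exactly `p + 1` elements.
`tr_fiber`: the roots of `X ^ p + X - r`.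
-/

set_option autoImplicit false

namespace Pool.Agent.helper80.MV

open Finset

variable (p : ℕ) [Fact p.Prime]

theorem card_K : Fintype.card (K p) = p ^ 2 := by
  rw [← Nat.card_eq_fintype_card]
  exact GaloisField.card p 2 (by norm_num)

theorem pow_pow_K (x : K p) : (x ^ p) ^ p = x := by
  rw [← pow_mul, ← pow_two, ← card_K p]
  exact FiniteField.pow_card x

theorem add_pow_K (x y : K p) : (x + y) ^ p = x ^ p + y ^ p :=
  map_add (frobenius (K p) p) x y

theorem sub_pow_K (x y : K p) : (x - y) ^ p = x ^ p - y ^ p :=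
  map_sub (frobenius (K p) p) x y

theorem neg_pow_K (x : K p) : (-x) ^ p = - x ^ p :=
  map_neg (frobenius (K p) p) x

theorem tr_pow (x : K p) : (tr p x) ^ p = tr p x := by
  unfold tr
  rw [add_pow_K, pow_pow_K, add_comm]

theorem nm_pow (x : K p) : (nm p x) ^ p = nm p x := by
  unfold nm
  rw [mul_pow, pow_pow_K, mul_comm]

theorem nm_eq_zero {x : K p} (h : nm p x = 0) : x = 0 := by
  unfold nm at h
  rcases mul_eq_zero.1 h with h | h
  · exact h
  · exact pow_eq_zero_iff (Nat.Prime.ne_zero Fact.out) |>.1 h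

private theorem Fld_card_roots {k : ℕ} (q : Polynomial (K p)) (hq : q.natDegree ≤ k) (hq0 : q ≠ 0)
    (S : Finset (K p)) (h : ∀ x ∈ S, q.eval x = 0) : S.card ≤ k := by
  have h1 : S ⊆ q.roots.toFinset := by
    intro x hx
    rw [Multiset.mem_toFinset, Polynomial.mem_roots hq0]
    exact h x hx
  calc S.card ≤ q.roots.toFinset.card := card_le_card h1
    _ ≤ q.roots.card := Multiset.toFinset_card_le _
    _ ≤ q.natDegree := q.card_roots'
    _ ≤ k := hq

open Polynomial in
theorem tr_fiber (r : K p) : (univ.filter fun x : K p => tr p x = r).card ≤ p := by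
  have hp : 1 < p := Nat.Prime.one_lt Fact.out
  have hd : (X - C r : Polynomial (K p)).degree < p := by
    rw [degree_X_sub_C]
    exact_mod_cast hp
  have hm : (X ^ p + (X - C r) : Polynomial (K p)).Monic := monic_X_pow_add hd
  have hn : (X ^ p + (X - C r) : Polynomial (K p)).natDegree ≤ p :=
    natDegree_add_le_of_degree_le (natDegree_X_pow_le p)
      ((natDegree_X_sub_C_le r).trans hp.le)
  refine Fld_card_roots p _ hn hm.ne_zero _ fun x hx => ?_
  have h := (mem_filter.1 hx).2
  unfold tr at h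
  simp only [eval_add, eval_pow, eval_X, eval_sub, eval_C]
  rw [← h]
  ring

open Polynomial in
private theorem Fld_pow_card (k : ℕ) (hk : 0 < k) (r : K p) (S : Finset (K p))
    (h : ∀ x ∈ S, x ^ k = r) : S.card ≤ k := by
  refine Fld_card_roots p (X ^ k - C r) (natDegree_X_pow_sub_C.le) (X_pow_sub_C_ne_zero hk r) S
    fun x hx => ?_
  simp [h x hx]

theorem nm_fiber {r : K p} (h0 : r ≠ 0) (hr : r ^ p = r) :
    p + 1 ≤ (univ.filter fun x : K p => nm p x = r).card := by
  have hp : 1 < p := Nat.Prime.one_lt Fact.out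
  obtain ⟨F, hF⟩ : ∃ F : Finset (K p), F = univ.filter fun s => s ≠ 0 ∧ s ^ p = s := ⟨_, rfl⟩
  obtain ⟨U, hU⟩ : ∃ U : Finset (K p), U = univ.erase 0 := ⟨_, rfl⟩
  have hFc : F.card ≤ p - 1 := by
    refine Fld_pow_card p (p - 1) (by omega) 1 F fun x hx => ?_
    rw [hF, mem_filter] at hx
    obtain ⟨-, hx0, hx1⟩ := hx
    have h2 : x ^ (p - 1) * x = 1 * x := by
      rw [← pow_succ, Nat.sub_add_cancel hp.le, one_mul, hx1]
    exact mul_right_cancel₀ hx0 h2
  have hUc : U.card = (p - 1) * (p + 1) := by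
    rw [hU, card_erase_of_mem (mem_univ _), card_univ, card_K]
    obtain ⟨m, rfl⟩ : ∃ m, p = m + 1 := ⟨p - 1, by omega⟩
    simp only [Nat.add_sub_cancel]
    have : (m + 1) ^ 2 = m * (m + 1 + 1) + 1 := by ring
    omega
  have hmap : ∀ x ∈ U, nm p x ∈ F := by
    intro x hx
    rw [hU, mem_erase] at hx
    rw [hF, mem_filter]
    exact ⟨mem_univ _, fun h => hx.1 (nm_eq_zero p h), nm_pow p x⟩
  have hrF : r ∈ F := by
    rw [hF, mem_filter]
    exact ⟨mem_univ _, h0, hr⟩
  have hfib : ∀ s : K p, (U.filter fun x => nm p x = s).card ≤ p + 1 := by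
    intro s
    refine Fld_pow_card p (p + 1) (by omega) s _ fun x hx => ?_
    have h := (mem_filter.1 hx).2
    rw [← h, nm, pow_succ, mul_comm]
  have hsum := card_eq_sum_card_fiberwise (f := nm p) (s := U) (t := F) hmap
  rw [hUc, ← add_sum_erase F _ hrF] at hsum
  have h3 : ∑ s ∈ F.erase r, (U.filter fun x => nm p x = s).card ≤ (F.erase r).card * (p + 1) := by
    rw [← smul_eq_mul]
    exact sum_le_card_nsmul _ _ _ fun s _ => hfib s
  have h4 : (F.erase r).card ≤ p - 2 := by
    rw [card_erase_of_mem hrF]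
    omega
  have h5 : (F.erase r).card * (p + 1) ≤ (p - 2) * (p + 1) := Nat.mul_le_mul_right _ h4
  have h6 : (p - 1) * (p + 1) = (p - 2) * (p + 1) + (p + 1) := by
    obtain ⟨m, rfl⟩ : ∃ m, p = m + 2 := ⟨p - 2, by omega⟩
    have h7 : m + 2 - 1 = m + 1 := by omega
    rw [h7, Nat.add_sub_cancel]
    ring
  have h8 : (U.filter fun x => nm p x = r).card ≤ (univ.filter fun x : K p => nm p x = r).card :=
    card_le_card (filter_subset_filter _ (subset_univ _))
  omega

end Pool.Agent.helper80.MV
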