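import Pool.Agent.helper80.MV.Fld

/-!
# MV-2 (Geo): counting points and lines

PROOFS.  `card_Pt`: for each `b` the `a` with `tr a = - nm b` are at most `p` by `tr_fiber`.
`card_Ln`: `Ln` and `Pt` partition `K × K` with `p⁴` elements.
`line_points`: for the line `(x, y)` put `r = tr x + nm y ≠ 0`, `r ^ p = r`.  For `u` with
`nm u = r` (at least `p + 1` of them by `nm_fiber`) put `b = y + u`, `a = - (x ^ p + y ^ p * b)`;
then `a ^ p = - (x + y * b ^ p)`, so the incidence equation holds, and
`tr a + nm b = - tr x - y ^ p b - y b ^ p + b b ^ p = nm (b - y) - nm y - tr x = 0`.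
`two_lines`: subtract the equations: `(x - x') + (y - y') b ^ p = 0`; if `y = y'` then `x = x'`;
otherwise `b ^ p`, hence `b` (`pow_pow_K`), hence `a ^ p` and `a` are determined.
-/

set_option autoImplicit false

namespace Pool.Agent.helper80.MV

open Finset

variable (p : ℕ) [Fact p.Prime]

theorem card_Pt : Fintype.card (Pt p) ≤ p ^ 3 := by
  have h := Finset.card_le_mul_card_image_of_maps_to (s := (univ : Finset (Pt p)))
    (t := (univ : Finset (K p))) (f := fun w : Pt p => w.1.2) (fun _ _ => mem_univ _) p ?_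
  · rw [card_univ, card_univ, card_K] at h
    calc Fintype.card (Pt p) ≤ p * p ^ 2 := h
      _ = p ^ 3 := by ring
  · intro b _
    refine le_trans ?_ (tr_fiber p (-(nm p b)))
    refine Finset.card_le_card_of_injOn (fun w => w.1.1) ?_ ?_
    · intro w hw
      rw [mem_coe, mem_filter] at hw
      have h1 := w.2
      rw [mem_coe, mem_filter]
      refine ⟨mem_univ _, ?_⟩
      rw [hw.2] at h1
      exact eq_neg_of_add_eq_zero_left h1
    · intro w hw w' hw' h
      rw [mem_coe, mem_filter] at hw hw'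
      apply Subtype.ext
      exact Prod.ext h (hw.2.trans hw'.2.symm)

theorem Geo_card_add : Fintype.card (Pt p) + Fintype.card (Ln p) = p ^ 4 := by
  have h := Fintype.card_congr (Equiv.sumCompl fun v : K p × K p => tr p v.1 + nm p v.2 = 0)
  rw [Fintype.card_sum, Fintype.card_prod, card_K] at h
  calc Fintype.card (Pt p) + Fintype.card (Ln p) = p ^ 2 * p ^ 2 := h
    _ = p ^ 4 := by ring

theorem card_Ln_ge : p ^ 4 ≤ Fintype.card (Ln p) + p ^ 3 := by
  have h1 := Geo_card_add p
  have h2 := card_Pt p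
  omega

theorem card_Ln_le : Fintype.card (Ln p) ≤ p ^ 4 := by
  have h1 := Geo_card_add p
  omega

open Classical in
theorem line_points (l : Ln p) : p + 1 ≤ (univ.filter fun w : Pt p => inc p l w).card := by
  obtain ⟨⟨x, y⟩, hl⟩ := l
  set r : K p := tr p x + nm p y with hr
  have hr0 : r ≠ 0 := hl
  have hrp : r ^ p = r := by rw [hr, add_pow_K, tr_pow, nm_pow]
  refine (nm_fiber p hr0 hrp).trans ?_
  rw [← Finset.card_map (Function.Embedding.subtype _)]
  refine Finset.card_le_card_of_injOn
    (fun u => (-(x ^ p + y ^ p * (y + u)), y + u)) ?_ ?_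
  · intro u hu
    rw [mem_coe, mem_filter] at hu
    have hu2 : u * u ^ p = r := hu.2
    have hap : (-(x ^ p + y ^ p * (y + u))) ^ p = -(x + y * (y ^ p + u ^ p)) := by
      rw [neg_pow_K, add_pow_K, mul_pow, pow_pow_K, pow_pow_K, add_pow_K]
    have hrr : r = x + x ^ p + y * y ^ p := rfl
    have hpt : tr p (-(x ^ p + y ^ p * (y + u))) + nm p (y + u) = 0 := by
      unfold tr nm
      rw [hap, add_pow_K]
      linear_combination hu2 + hrr
    rw [mem_coe, mem_map]
    refine ⟨⟨(-(x ^ p + y ^ p * (y + u)), y + u), hpt⟩, ?_, rfl⟩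
    rw [mem_filter]
    refine ⟨mem_univ _, ?_⟩
    change x + y * (y + u) ^ p + (-(x ^ p + y ^ p * (y + u))) ^ p = 0
    rw [hap, add_pow_K]
    ring
  · intro u _ u' _ h
    have h2 := congrArg Prod.snd h
    exact add_left_cancel h2

theorem two_lines {l m : Ln p} (hlm : l ≠ m) {w w' : Pt p} (h1 : inc p l w) (h2 : inc p m w)
    (h3 : inc p l w') (h4 : inc p m w') : w = w' := by
  obtain ⟨⟨x, y⟩, hl⟩ := l
  obtain ⟨⟨x', y'⟩, hm⟩ := m
  obtain ⟨⟨a, b⟩, hw⟩ := w
  obtain ⟨⟨a', b'⟩, hw'⟩ := w'
  have e1 : x + y * b ^ p + a ^ p = 0 := h1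
  have e2 : x' + y' * b ^ p + a ^ p = 0 := h2
  have e3 : x + y * b' ^ p + a' ^ p = 0 := h3
  have e4 : x' + y' * b' ^ p + a' ^ p = 0 := h4
  have hyy : y ≠ y' := by
    intro h
    apply hlm
    subst h
    have hx : x = x' := by linear_combination e1 - e2
    subst hx
    rfl
  have hb : (y - y') * (b ^ p - b' ^ p) = 0 := by
    linear_combination e1 - e2 - e3 + e4
  have hbp : b ^ p = b' ^ p := by
    rcases mul_eq_zero.1 hb with h | h
    · exact absurd (sub_eq_zero.1 h) hyy
    · exact sub_eq_zero.1 h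
  have hb' : b = b' := by
    rw [← pow_pow_K p b, ← pow_pow_K p b', hbp]
  subst hb'
  have hap : a ^ p = a' ^ p := by linear_combination e1 - e3
  have ha : a = a' := by
    rw [← pow_pow_K p a, ← pow_pow_K p a', hap]
  subst ha
  rfl

/-- double counting of incidences, from `line_points` -/
theorem sum_dp_ge (X : Finset (Ln p)) : (p + 1) * X.card ≤ ∑ w : Pt p, dp (inc p) X w := by
  classical
  have h1 : ∑ w : Pt p, dp (inc p) X w =
      ∑ l ∈ X, (univ.filter fun w : Pt p => inc p l w).card := by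
    simp only [dp, Finset.card_filter]
    exact Finset.sum_comm
  rw [h1, mul_comm]
  refine Finset.card_nsmul_le_sum X _ (p + 1) fun l _ => ?_
  convert line_points p l

end Pool.Agent.helper80.MV
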