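import Pool.Agent.helper80.MV.Defs

/-!
# MV-7 (KW): few independent sets (Kleitman and Winston), with generating functions

PROOFS.  `isum_step`: split the independent subsets of `A` by whether they contain `x`; those which
contain `x` are `{x} ∪ S`, `S` independent in `A` without `x` and its neighbours.
`isum_le`: the sum over all subsets is `(1 + z) ^ |A|` (`Finset.sum_pow_mul_eq_add_pow` or
`Finset.prod_one_add`).
`kw`: strong induction on `n = |A|`.  If `n < R` then `isum ≤ (1 + z) ^ R` and the second factor is at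
least `1`.  If `n ≥ R` let `x` be the vertex of the hypothesis, `d = dg G A x ≥ n / b`; the sets
`A \ x` and `A \ N[x]` have `n - 1` and `n - 1 - d` elements.  Put `m = n + R ≤ 2 n`, `κ = 2 b e`.  Then
`(m - 1) ^ κ ≤ m ^ κ (1 - 1/m)` (as `κ ≥ 1`), and `m - 1 - d ≤ m (1 - 1/(2b))`, so
`(m - 1 - d) ^ κ ≤ m ^ κ ((1 - 1/(2b)) ^ (2b)) ^ e ≤ m ^ κ / 2 ^ e ≤ m ^ κ / m`
(`(1 - 1/t) ^ t ≤ 1/2` for natural `t ≥ 1`... from `(1 - 1/t) ^ t ≤ exp (-1) ≤ 1/2`,
`Real.one_sub_div_pow_le_exp_neg`).  The sum of both, with `z ≤ 1`, is at most `m ^ κ`.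
`count_le`: the independent sets of size `t` contribute `z ^ t` each.
-/

set_option autoImplicit false

namespace Pool.Agent.helper80.MV

open Finset

variable {V : Type}

open Classical in
private theorem KW_isum_eq (G : SimpleGraph V) (A : Finset V) (z : ℝ) :
    isum G A z = ∑ S ∈ A.powerset, if Ind G S then z ^ S.card else 0 := by
  unfold isum
  rw [Finset.sum_filter]

private theorem KW_ind_insert [DecidableEq V] (G : SimpleGraph V) (S : Finset V) (x : V) :
    Ind G (insert x S) ↔ Ind G S ∧ ∀ y ∈ S, ¬ G.Adj x y := by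
  constructor
  · intro h
    exact ⟨fun a ha b hb => h a (mem_insert_of_mem ha) b (mem_insert_of_mem hb),
      fun y hy => h x (mem_insert_self _ _) y (mem_insert_of_mem hy)⟩
  · rintro ⟨h1, h2⟩ a ha b hb
    rw [mem_insert] at ha hb
    rcases ha with rfl | ha
    · rcases hb with rfl | hb
      · exact G.loopless.irrefl _
      · exact h2 b hb
    · rcases hb with rfl | hb
      · exact fun h => h2 a ha h.symm
      · exact h1 a ha b hb

open Classical in
theorem isum_step (G : SimpleGraph V) (A : Finset V) {x : V} (hx : x ∈ A) (z : ℝ) :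
    isum G A z = isum G (A.erase x) z +
      z * isum G ((A.erase x).filter fun y => ¬ G.Adj x y) z := by
  rw [KW_isum_eq G A, KW_isum_eq G (A.erase x),
    KW_isum_eq G ((A.erase x).filter fun y => ¬ G.Adj x y)]
  conv_lhs => rw [← Finset.insert_erase hx]
  rw [Finset.sum_powerset_insert (Finset.notMem_erase x A)]
  congr 1
  rw [Finset.mul_sum]
  symm
  have h1 : ∀ S ∈ ((A.erase x).filter fun y => ¬ G.Adj x y).powerset,
      (z * if Ind G S then z ^ S.card else 0) =
        if Ind G (insert x S) then z ^ (insert x S).card else 0 := by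
    intro S hS
    rw [Finset.mem_powerset] at hS
    have hxS : x ∉ S := fun h => Finset.notMem_erase x A (Finset.mem_filter.1 (hS h)).1
    have hi : Ind G (insert x S) ↔ Ind G S := by
      rw [KW_ind_insert]
      exact ⟨fun h => h.1, fun h => ⟨h, fun y hy => (Finset.mem_filter.1 (hS hy)).2⟩⟩
    by_cases hI : Ind G S
    · rw [if_pos hI, if_pos (hi.2 hI), Finset.card_insert_of_notMem hxS, pow_succ, mul_comm]
    · rw [if_neg hI, if_neg (fun h => hI (hi.1 h)), mul_zero]
  rw [Finset.sum_congr rfl h1]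
  refine Finset.sum_subset (Finset.powerset_mono.2 (Finset.filter_subset _ _)) ?_
  intro S hS hS'
  rw [Finset.mem_powerset] at hS hS'
  rw [if_neg]
  intro hI
  rw [KW_ind_insert] at hI
  exact hS' fun y hy => Finset.mem_filter.2 ⟨hS hy, hI.2 y hy⟩

theorem isum_le (G : SimpleGraph V) (A : Finset V) {z : ℝ} (hz : 0 ≤ z) :
    isum G A z ≤ (1 + z) ^ A.card := by
  classical
  have h := Finset.sum_pow_mul_eq_add_pow z 1 A
  rw [add_comm 1 z, ← h]
  unfold isum
  refine (Finset.sum_le_sum_of_subset_of_nonneg (Finset.filter_subset _ _)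
    fun S _ _ => pow_nonneg hz _).trans (le_of_eq ?_)
  refine Finset.sum_congr rfl fun S _ => ?_
  rw [one_pow, mul_one]

/-- `(1 - 1/(2b)) ^ (2be) ≤ 1 / 2 ^ e` -/
private theorem KW_pow (b e : ℕ) (hb : 1 ≤ b) :
    (1 - 1 / (2 * (b : ℝ))) ^ (2 * b * e) ≤ 1 / 2 ^ e := by
  have hb' : (1 : ℝ) ≤ b := by exact_mod_cast hb
  have h0 : (0 : ℝ) ≤ 1 - 1 / (2 * (b : ℝ)) := by
    rw [sub_nonneg, div_le_one (by positivity)]
    linarith
  have h1 : 1 - 1 / (2 * (b : ℝ)) ≤ Real.exp (-(1 / (2 * (b : ℝ)))) := by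
    have := Real.add_one_le_exp (-(1 / (2 * (b : ℝ))))
    linarith
  have h2 : (1 - 1 / (2 * (b : ℝ))) ^ (2 * b) ≤ 1 / 2 := by
    calc (1 - 1 / (2 * (b : ℝ))) ^ (2 * b) ≤ Real.exp (-(1 / (2 * (b : ℝ)))) ^ (2 * b) :=
          pow_le_pow_left₀ h0 h1 _
      _ = Real.exp (-1) := by
          rw [← Real.exp_nat_mul]
          congr 1
          push_cast
          field_simp
      _ ≤ 1 / 2 := by
          rw [Real.exp_neg, one_div]
          apply inv_anti₀ (by norm_num)
          have := Real.add_one_le_exp (1 : ℝ)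
          linarith
  rw [pow_mul]
  calc ((1 - 1 / (2 * (b : ℝ))) ^ (2 * b)) ^ e ≤ (1 / 2) ^ e :=
        pow_le_pow_left₀ (pow_nonneg h0 _) h2 _
    _ = 1 / 2 ^ e := by rw [div_pow, one_pow]

/-- the inequality of the induction step -/
private theorem KW_real (b e : ℕ) (hb : 1 ≤ b) (he : 1 ≤ e) {m n d z : ℝ} (hm : 1 ≤ m)
    (hmn : m ≤ 2 * n) (hd : n ≤ b * d) (hdm : 0 ≤ m - 1 - d) (hme : m ≤ 2 ^ e)
    (hz1 : z ≤ 1) :
    (m - 1) ^ (2 * b * e) + z * (m - 1 - d) ^ (2 * b * e) ≤ m ^ (2 * b * e) := by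
  have hb' : (1 : ℝ) ≤ b := by exact_mod_cast hb
  have hm0 : 0 < m := by linarith
  have hk : 2 * b * e ≠ 0 := by positivity
  have h1 : (m - 1) ^ (2 * b * e) ≤ m ^ (2 * b * e) * (1 - 1 / m) := by
    have e1 : m - 1 = m * (1 - 1 / m) := by field_simp
    have h01 : 0 ≤ 1 - 1 / m := by
      rw [sub_nonneg, div_le_one hm0]
      exact hm
    have h02 : 1 - 1 / m ≤ 1 := by
      have : 0 ≤ 1 / m := by positivity
      linarith
    rw [e1, mul_pow]
    refine mul_le_mul_of_nonneg_left ?_ (by positivity)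
    exact pow_le_of_le_one h01 h02 hk
  have h2 : (m - 1 - d) ^ (2 * b * e) ≤ m ^ (2 * b * e) * (1 / m) := by
    have e2 : m - 1 - d ≤ m * (1 - 1 / (2 * (b : ℝ))) := by
      have hdn : n / b ≤ d := by
        rw [div_le_iff₀ (by linarith)]
        linarith
      have : m / (2 * b) ≤ n / b := by
        rw [div_le_div_iff₀ (by positivity) (by positivity)]
        nlinarith
      have e3 : m * (1 - 1 / (2 * (b : ℝ))) = m - m / (2 * b) := by
        field_simp
      rw [e3]
      linarith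
    calc (m - 1 - d) ^ (2 * b * e) ≤ (m * (1 - 1 / (2 * (b : ℝ)))) ^ (2 * b * e) :=
          pow_le_pow_left₀ hdm e2 _
      _ = m ^ (2 * b * e) * (1 - 1 / (2 * (b : ℝ))) ^ (2 * b * e) := mul_pow _ _ _
      _ ≤ m ^ (2 * b * e) * (1 / m) := by
          refine mul_le_mul_of_nonneg_left ?_ (by positivity)
          refine (KW_pow b e hb).trans ?_
          exact one_div_le_one_div_of_le hm0 hme
  have h3 : z * (m - 1 - d) ^ (2 * b * e) ≤ m ^ (2 * b * e) * (1 / m) := by
    refine (mul_le_of_le_one_left (pow_nonneg hdm _) hz1).trans h2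
  have : m ^ (2 * b * e) * (1 - 1 / m) + m ^ (2 * b * e) * (1 / m) = m ^ (2 * b * e) := by ring
  linarith

theorem kw (G : SimpleGraph V) (R b e : ℕ) (hR : 1 ≤ R) (hb : 1 ≤ b) (he : 1 ≤ e)
    (h : ∀ A : Finset V, R ≤ A.card → ∃ x ∈ A, A.card ≤ b * dg G A x) {z : ℝ} (hz : 0 ≤ z)
    (hz1 : z ≤ 1) (A : Finset V) (hA : A.card + R ≤ 2 ^ e) :
    isum G A z ≤ (1 + z) ^ R * (((A.card : ℝ) + R) / R) ^ (2 * b * e) := by
  classical
  induction hn : A.card using Nat.strong_induction_on generalizing A with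
  | _ n ih =>
  have hR' : (1 : ℝ) ≤ R := by exact_mod_cast hR
  have hR0 : (0 : ℝ) < R := by linarith
  have hz' : (1 : ℝ) ≤ 1 + z := by linarith
  rcases lt_or_ge n R with hlt | hge
  · have h1 := isum_le G A hz
    rw [hn] at h1
    have h2 : (1 + z) ^ n ≤ (1 + z) ^ R := pow_le_pow_right₀ hz' hlt.le
    have h3 : (1 : ℝ) ≤ (((n : ℝ) + R) / R) ^ (2 * b * e) := by
      apply one_le_pow₀
      rw [le_div_iff₀ hR0]
      have : (0 : ℝ) ≤ n := Nat.cast_nonneg n
      linarith
    calc isum G A z ≤ (1 + z) ^ R := h1.trans h2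
      _ ≤ (1 + z) ^ R * (((n : ℝ) + R) / R) ^ (2 * b * e) :=
          le_mul_of_one_le_right (by positivity) h3
  · obtain ⟨x, hx, hd⟩ := h A (by omega)
    rw [hn] at hd
    set d := dg G A x with hd_def
    have hc1 : (A.erase x).card = n - 1 := by rw [Finset.card_erase_of_mem hx, hn]
    have hdE : d = ((A.erase x).filter fun y => G.Adj x y).card := by
      rw [hd_def]
      unfold dg
      congr 1
      ext y
      simp only [Finset.mem_filter, Finset.mem_erase]
      constructor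
      · rintro ⟨h1, h2⟩
        exact ⟨⟨h2.ne', h1⟩, h2⟩
      · rintro ⟨⟨_, h1⟩, h2⟩
        exact ⟨h1, h2⟩
    have hc2 : ((A.erase x).filter fun y => ¬ G.Adj x y).card + d = n - 1 := by
      rw [hdE, ← hc1, add_comm]
      exact Finset.card_filter_add_card_filter_not (s := A.erase x) (fun y => G.Adj x y)
    have hn1 : 1 ≤ n := hR.trans hge
    have i1 := ih (A.erase x).card (by omega) (A.erase x) (by omega) rfl
    have i2 := ih ((A.erase x).filter fun y => ¬ G.Adj x y).card (by omega)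
      ((A.erase x).filter fun y => ¬ G.Adj x y) (by omega) rfl
    rw [isum_step G A hx z]
    have hm : (1 : ℝ) ≤ (n : ℝ) + R := by
      have : (0 : ℝ) ≤ n := Nat.cast_nonneg n
      linarith
    have hmn : (n : ℝ) + R ≤ 2 * n := by
      have : (R : ℝ) ≤ n := by exact_mod_cast hge
      linarith
    have hdr : (n : ℝ) ≤ b * (d : ℝ) := by exact_mod_cast hd
    have hc2' : (((A.erase x).filter fun y => ¬ G.Adj x y).card : ℝ) = n - 1 - d := by
      have : (((A.erase x).filter fun y => ¬ G.Adj x y).card : ℝ) + d + 1 = n := by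
        exact_mod_cast (by omega :
          ((A.erase x).filter fun y => ¬ G.Adj x y).card + d + 1 = n)
      linarith
    have hc1' : ((A.erase x).card : ℝ) = n - 1 := by
      have : ((A.erase x).card : ℝ) + 1 = n := by
        exact_mod_cast (by omega : (A.erase x).card + 1 = n)
      linarith
    have hdm : (0 : ℝ) ≤ ((n : ℝ) + R) - 1 - d := by
      have : (0 : ℝ) ≤ (((A.erase x).filter fun y => ¬ G.Adj x y).card : ℝ) :=
        Nat.cast_nonneg _
      rw [hc2'] at this
      linarith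
    have hme : (n : ℝ) + R ≤ 2 ^ e := by
      rw [hn] at hA
      exact_mod_cast hA
    have key := KW_real b e hb he hm hmn hdr hdm hme hz1
    have hk : ∀ t : ℝ, (t / R) ^ (2 * b * e) = t ^ (2 * b * e) / (R : ℝ) ^ (2 * b * e) :=
      fun t => div_pow _ _ _
    rw [hc1', hk] at i1
    rw [hc2', hk] at i2
    rw [hk]
    have e1 : (n : ℝ) - 1 + R = (n : ℝ) + R - 1 := by ring
    have e2 : (n : ℝ) - 1 - d + R = (n : ℝ) + R - 1 - d := by ring
    rw [e1] at i1
    rw [e2] at i2
    calc isum G (A.erase x) z + z * isum G ((A.erase x).filter fun y => ¬ G.Adj x y) z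
        ≤ (1 + z) ^ R * (((n : ℝ) + R - 1) ^ (2 * b * e) / (R : ℝ) ^ (2 * b * e)) +
          z * ((1 + z) ^ R * (((n : ℝ) + R - 1 - d) ^ (2 * b * e) /
            (R : ℝ) ^ (2 * b * e))) := add_le_add i1 (mul_le_mul_of_nonneg_left i2 hz)
      _ = (1 + z) ^ R * ((((n : ℝ) + R - 1) ^ (2 * b * e) +
          z * ((n : ℝ) + R - 1 - d) ^ (2 * b * e)) / (R : ℝ) ^ (2 * b * e)) := by ring
      _ ≤ (1 + z) ^ R * (((n : ℝ) + R) ^ (2 * b * e) / (R : ℝ) ^ (2 * b * e)) := by
          refine mul_le_mul_of_nonneg_left ?_ (by positivity)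
          exact div_le_div_of_nonneg_right key (by positivity)

open Classical in
theorem count_le (G : SimpleGraph V) (A : Finset V) (t : ℕ) {z : ℝ} (hz : 0 ≤ z) :
    ((A.powerset.filter fun S => Ind G S ∧ S.card = t).card : ℝ) * z ^ t ≤ isum G A z := by
  unfold isum
  have h1 : ((A.powerset.filter fun S => Ind G S ∧ S.card = t).card : ℝ) * z ^ t =
      ∑ S ∈ A.powerset.filter (fun S => Ind G S ∧ S.card = t), z ^ S.card := by
    rw [← nsmul_eq_mul, ← Finset.sum_const]
    refine Finset.sum_congr rfl fun S hS => ?_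
    rw [(Finset.mem_filter.1 hS).2.2]
  rw [h1]
  refine Finset.sum_le_sum_of_subset_of_nonneg ?_ fun S _ _ => pow_nonneg hz _
  intro S hS
  rw [Finset.mem_filter] at hS ⊢
  exact ⟨hS.1, hS.2.1⟩

end Pool.Agent.helper80.MV
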