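import Mathlib

/-!
# MV-8 (Thin): deleting vertices

`F` is a family of sets of size `t` and `|F| (w / |A|) ^ t < 1`.  Then there is `W ⊆ A` with `w`
elements which contains no member of `F`.

PROOF.  For `w ≤ n ≤ |A|` there is `W ⊆ A` with `|W| = n` containing at most `|F| (n / |A|) ^ t`
members of `F`: decreasing induction on `n` (or induction on `|A| - n`).  Step from `n` to `n - 1`
(`n ≥ w + 1 ≥ 1`): let `f(W)` be the number of members of `F` inside `W`;
`∑_{x ∈ W} f(W \ x) = (n - t) f(W)` (a member `S ⊆ W` is inside `W \ x` for the `n - t` elements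
`x ∈ W \ S`), so for some `x` we have `f(W \ x) ≤ f(W) (n - t) / n = f(W) (1 - t/n) ≤
f(W) (1 - 1/n) ^ t` (Bernoulli, `one_add_mul_le_pow`), and
`(n / |A|) ^ t (1 - 1/n) ^ t = ((n-1) / |A|) ^ t`.  At `n = w` the number is `< 1`, so it is `0`.
-/

set_option autoImplicit false

namespace Pool.Agent.helper80.MV

open Finset

open Classical in
theorem Thin_sum {V : Type} (F : Finset (Finset V)) (t : ℕ) (hF : ∀ S ∈ F, S.card = t)
    (W : Finset V) :
    ∑ x ∈ W, (((F.filter fun S => S ⊆ W.erase x).card : ℕ) : ℝ) =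
      ((W.card : ℝ) - t) * ((F.filter fun S => S ⊆ W).card : ℕ) := by
  have h1 : ∀ x ∈ W, (((F.filter fun S => S ⊆ W.erase x).card : ℕ) : ℝ) =
      ∑ S ∈ F, if S ⊆ W.erase x then (1 : ℝ) else 0 := by
    intro x _
    rw [Finset.card_filter]
    push_cast
    rfl
  rw [Finset.sum_congr rfl h1, Finset.sum_comm, Finset.card_filter]
  push_cast
  rw [Finset.mul_sum]
  refine Finset.sum_congr rfl fun S hS => ?_
  by_cases hSW : S ⊆ W
  · rw [if_pos hSW, mul_one]
    have h2 : ∀ x ∈ W, (if S ⊆ W.erase x then (1 : ℝ) else 0) = if x ∈ W \ S then 1 else 0 := by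
      intro x hx
      congr 1
      rw [eq_iff_iff]
      constructor
      · intro h
        rw [Finset.mem_sdiff]
        exact ⟨hx, fun hxS => Finset.notMem_erase x W (h hxS)⟩
      · intro h y hy
        rw [Finset.mem_erase]
        refine ⟨?_, hSW hy⟩
        rintro rfl
        exact (Finset.mem_sdiff.1 h).2 hy
    rw [Finset.sum_congr rfl h2, Finset.sum_boole]
    have h3 : W.filter (fun x => x ∈ W \ S) = W \ S := by
      ext x
      simp
    rw [h3]
    have h4 := Finset.card_sdiff_add_card_eq_card hSW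
    rw [hF S hS] at h4
    rw [← h4]
    push_cast
    ring
  · rw [if_neg hSW, mul_zero]
    refine Finset.sum_eq_zero fun x _ => ?_
    rw [if_neg]
    intro h
    exact hSW (h.trans (Finset.erase_subset _ _))

open Classical in
theorem Thin_step {V : Type} (F : Finset (Finset V)) (t : ℕ) (hF : ∀ S ∈ F, S.card = t)
    (W : Finset V) (hW : 1 ≤ W.card) :
    ∃ x ∈ W, (((F.filter fun S => S ⊆ W.erase x).card : ℕ) : ℝ) ≤
      (1 - 1 / (W.card : ℝ)) ^ t * ((F.filter fun S => S ⊆ W).card : ℕ) := by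
  by_contra hcon
  push Not at hcon
  have hn : (1 : ℝ) ≤ W.card := by exact_mod_cast hW
  have hn0 : (0 : ℝ) < W.card := by linarith
  have hne : W.Nonempty := Finset.card_pos.1 (by omega)
  have h1 := Finset.sum_lt_sum_of_nonempty hne hcon
  rw [Thin_sum F t hF W, Finset.sum_const, nsmul_eq_mul] at h1
  have h2 : 1 + (t : ℝ) * (-(1 / (W.card : ℝ))) ≤ (1 + -(1 / (W.card : ℝ))) ^ t := by
    apply one_add_mul_le_pow
    have : 1 / (W.card : ℝ) ≤ 1 := by
      rw [div_le_one hn0]
      exact hn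
    linarith
  have h3 : ((W.card : ℝ) - t) * ((F.filter fun S => S ⊆ W).card : ℕ) ≤
      (W.card : ℝ) * ((1 - 1 / (W.card : ℝ)) ^ t * ((F.filter fun S => S ⊆ W).card : ℕ)) := by
    rw [← mul_assoc]
    refine mul_le_mul_of_nonneg_right ?_ (Nat.cast_nonneg _)
    have h4 : (W.card : ℝ) * (1 + (t : ℝ) * (-(1 / (W.card : ℝ)))) = (W.card : ℝ) - t := by
      field_simp
      ring
    rw [← h4, sub_eq_add_neg]
    exact mul_le_mul_of_nonneg_left h2 hn0.le
  linarith

open Classical in
theorem Thin_ind {V : Type} (F : Finset (Finset V)) (t : ℕ) (hF : ∀ S ∈ F, S.card = t)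
    (A : Finset V) (hA : 0 < A.card) (j : ℕ) : j ≤ A.card →
    ∃ W ⊆ A, W.card = A.card - j ∧ (((F.filter fun S => S ⊆ W).card : ℕ) : ℝ) ≤
      (F.card : ℝ) * (((A.card - j : ℕ) : ℝ) / A.card) ^ t := by
  induction j with
  | zero =>
    intro _
    refine ⟨A, Finset.Subset.refl _, by simp, ?_⟩
    have hA' : (A.card : ℝ) ≠ 0 := by positivity
    rw [Nat.sub_zero, div_self hA', one_pow, mul_one]
    exact_mod_cast Finset.card_filter_le _ _
  | succ j ih =>
    intro hj
    obtain ⟨W, hWA, hWc, hW⟩ := ih (by omega)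
    obtain ⟨x, hx, hle⟩ := Thin_step F t hF W (by omega)
    refine ⟨W.erase x, (Finset.erase_subset _ _).trans hWA, ?_, ?_⟩
    · rw [Finset.card_erase_of_mem hx, hWc]
      omega
    · refine hle.trans ?_
      have hA' : (0 : ℝ) < A.card := by positivity
      have hn : (1 : ℝ) ≤ ((A.card - j : ℕ) : ℝ) := by
        have : 1 ≤ A.card - j := by omega
        exact_mod_cast this
      have h1 : (0 : ℝ) ≤ 1 - 1 / ((A.card - j : ℕ) : ℝ) := by
        rw [sub_nonneg, div_le_one (by linarith)]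
        exact hn
      rw [hWc]
      refine (mul_le_mul_of_nonneg_left hW (pow_nonneg h1 t)).trans (le_of_eq ?_)
      have h2 : (((A.card - (j + 1) : ℕ) : ℝ) / A.card) =
          (1 - 1 / ((A.card - j : ℕ) : ℝ)) * (((A.card - j : ℕ) : ℝ) / A.card) := by
        have h3 : ((A.card - (j + 1) : ℕ) : ℝ) = ((A.card - j : ℕ) : ℝ) - 1 := by
          have : A.card - j = A.card - (j + 1) + 1 := by omega
          rw [this]
          push_cast
          ring
        rw [h3]
        have h4 : ((A.card - j : ℕ) : ℝ) ≠ 0 := by linarith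
        field_simp
      rw [h2, mul_pow]
      ring

theorem thin {V : Type} (F : Finset (Finset V)) (t : ℕ) (hF : ∀ S ∈ F, S.card = t) (A : Finset V)
    (w : ℕ) (hw : w ≤ A.card) (h : (F.card : ℝ) * ((w : ℝ) / A.card) ^ t < 1) :
    ∃ W ⊆ A, W.card = w ∧ ∀ S ∈ F, ¬ S ⊆ W := by
  classical
  rcases Nat.eq_zero_or_pos A.card with hA | hA
  · have hw0 : w = 0 := by omega
    refine ⟨∅, Finset.empty_subset _, by simp [hw0], fun S hS hsub => ?_⟩
    have hS0 : S = ∅ := Finset.subset_empty.1 hsub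
    have ht : t = 0 := by rw [← hF S hS, hS0, Finset.card_empty]
    rw [ht, pow_zero, mul_one] at h
    have : 1 ≤ F.card := Finset.card_pos.2 ⟨S, hS⟩
    have : (1 : ℝ) ≤ F.card := by exact_mod_cast this
    linarith
  · obtain ⟨W, hWA, hWc, hW⟩ := Thin_ind F t hF A hA (A.card - w) (Nat.sub_le _ _)
    rw [Nat.sub_sub_self hw] at hWc hW
    refine ⟨W, hWA, hWc, fun S hS hSW => ?_⟩
    have h1 : 1 ≤ (F.filter fun S => S ⊆ W).card :=
      Finset.card_pos.2 ⟨S, Finset.mem_filter.2 ⟨hS, hSW⟩⟩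
    have h2 : (1 : ℝ) ≤ ((F.filter fun S => S ⊆ W).card : ℕ) := by exact_mod_cast h1
    linarith

end Pool.Agent.helper80.MV
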