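import Pool.Agent.helper80.MV.Color

/-!
# MV-5 (Union): a good colouring exists

PROOF.  For a fixed `X` with `16 p²` elements let `B_X` be the set of colourings `c` with
`bi I c X < p³`.  By `color_avg` and `∑ dp ≥ (p + 1) 16 p² ≥ 16 p³`, `card P ≤ p³`:
`|B_X| (1/2) ^ (p³) ≤ 2 ^ (|P| |L|) 2 ^ (p³) (3/4) ^ (16 p³)`, so
`|B_X| ≤ 2 ^ (|P| |L|) (4 (3/4)^16) ^ (p³) ≤ 2 ^ (|P| |L|) (1/16) ^ (p³)`.
The number of `X` is at most `|L| ^ (16 p²) ≤ p ^ (64 p²) ≤ 2 ^ (64 e p²)` with `p ≤ 2 ^ e`.  As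
`16 e < p`, `2 ^ (64 e p²) (1/16) ^ (p³) < 1`: not all colourings are in the union of the `B_X`
(the number of all colourings is `2 ^ (|P| |L|)`).
-/

set_option autoImplicit false

namespace Pool.Agent.helper80.MV

open Finset

variable {L P : Type} [Fintype L] [Fintype P]

theorem exists_coloring (I : L → P → Prop) (p e : ℕ) (hp : 1 ≤ p) (he : p ≤ 2 ^ e) (hpe : 16 * e < p)
    (hP : Fintype.card P ≤ p ^ 3) (hL : Fintype.card L ≤ p ^ 4)
    (hI : ∀ X : Finset L, (p + 1) * X.card ≤ ∑ w, dp I X w) :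
    ∃ c : P → L → Bool, ∀ X : Finset L, X.card = 16 * p ^ 2 → p ^ 3 ≤ bi I c X := by
  classical
  by_contra hcon
  push Not at hcon
  let Xs : Finset (Finset L) := (univ : Finset L).powersetCard (16 * p ^ 2)
  have h1 : ∀ c : P → L → Bool, (1 : ℝ) ≤ ∑ X ∈ Xs, (1 / 2 : ℝ) ^ bi I c X * 2 ^ (p ^ 3) := by
    intro c
    obtain ⟨X, hX, hb⟩ := hcon c
    have hmem : X ∈ Xs := mem_powersetCard.2 ⟨subset_univ _, hX⟩
    refine le_trans ?_ (single_le_sum (f := fun X => (1 / 2 : ℝ) ^ bi I c X * 2 ^ (p ^ 3))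
      (fun _ _ => by positivity) hmem)
    change (1 : ℝ) ≤ (1 / 2 : ℝ) ^ bi I c X * 2 ^ (p ^ 3)
    have h3 : (2 : ℝ) ^ bi I c X ≤ 2 ^ (p ^ 3) := pow_le_pow_right₀ (by norm_num) hb.le
    have h4 : (1 / 2 : ℝ) ^ bi I c X * 2 ^ bi I c X = 1 := by
      rw [← mul_pow]
      norm_num
    calc (1 : ℝ) = (1 / 2 : ℝ) ^ bi I c X * 2 ^ bi I c X := h4.symm
      _ ≤ _ := mul_le_mul_of_nonneg_left h3 (by positivity)
  have h2 := sum_le_sum (s := (univ : Finset (P → L → Bool))) fun c _ => h1 c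
  rw [sum_comm, sum_const, card_univ, nsmul_eq_mul, mul_one] at h2
  set N : ℝ := 2 ^ (Fintype.card P * Fintype.card L) with hN
  have hNpos : 0 < N := by positivity
  have hcard : ((Fintype.card (P → L → Bool) : ℕ) : ℝ) = N := by
    rw [Fintype.card_fun, Fintype.card_fun, Fintype.card_bool, ← pow_mul,
      mul_comm (Fintype.card L), hN]
    push_cast
    ring
  rw [hcard] at h2
  -- every term
  have h5 : ∀ X ∈ Xs, ∑ c : P → L → Bool, (1 / 2 : ℝ) ^ bi I c X * 2 ^ (p ^ 3) ≤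
      N * (1 / 16) ^ (p ^ 3) := by
    intro X hX
    have hXc : X.card = 16 * p ^ 2 := (mem_powersetCard.1 hX).2
    rw [← sum_mul]
    have h6 := color_avg I X
    have h7 : (3 / 4 : ℝ) ^ ∑ w, dp I X w ≤ (3 / 4) ^ (16 * p ^ 3) := by
      refine pow_le_pow_of_le_one (by norm_num) (by norm_num) ?_
      have := hI X
      rw [hXc] at this
      refine le_trans ?_ this
      nlinarith [Nat.zero_le (p ^ 2)]
    have h8 : (2 : ℝ) ^ Fintype.card P ≤ 2 ^ (p ^ 3) := pow_le_pow_right₀ (by norm_num) hP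
    have h9 : (2 : ℝ) ^ Fintype.card P * (3 / 4) ^ ∑ w, dp I X w ≤
        2 ^ (p ^ 3) * (3 / 4) ^ (16 * p ^ 3) :=
      mul_le_mul h8 h7 (by positivity) (by positivity)
    calc (∑ c : P → L → Bool, (1 / 2 : ℝ) ^ bi I c X) * 2 ^ (p ^ 3)
        ≤ (N * (2 ^ (p ^ 3) * (3 / 4) ^ (16 * p ^ 3))) * 2 ^ (p ^ 3) := by
          refine mul_le_mul_of_nonneg_right (h6.trans ?_) (by positivity)
          exact mul_le_mul_of_nonneg_left h9 hNpos.le
      _ = N * (4 * (3 / 4) ^ 16) ^ (p ^ 3) := by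
          rw [mul_pow, ← pow_mul, show (4 : ℝ) = 2 * 2 by norm_num, mul_pow]
          ring
      _ ≤ N * (1 / 16) ^ (p ^ 3) := by
          refine mul_le_mul_of_nonneg_left ?_ hNpos.le
          refine pow_le_pow_left₀ (by norm_num) ?_ _
          norm_num
  have h10 := h2.trans (sum_le_sum h5)
  rw [sum_const, nsmul_eq_mul] at h10
  have h11 : (Xs.card : ℝ) ≤ 16 ^ (16 * e * p ^ 2) := by
    have h12 : Xs.card ≤ 16 ^ (16 * e * p ^ 2) := by
      calc Xs.card = (Fintype.card L).choose (16 * p ^ 2) := by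
            rw [card_powersetCard, card_univ]
        _ ≤ (Fintype.card L) ^ (16 * p ^ 2) := Nat.choose_le_pow _ _
        _ ≤ (p ^ 4) ^ (16 * p ^ 2) := Nat.pow_le_pow_left hL _
        _ ≤ ((2 ^ e) ^ 4) ^ (16 * p ^ 2) :=
            Nat.pow_le_pow_left (Nat.pow_le_pow_left he _) _
        _ = 16 ^ (16 * e * p ^ 2) := by
            rw [show (16 : ℕ) = 2 ^ 4 by norm_num, ← pow_mul, ← pow_mul, ← pow_mul]
            congr 1
            ring
    exact_mod_cast h12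
  have h13 : (16 : ℝ) ^ (16 * e * p ^ 2) * (1 / 16) ^ (p ^ 3) < 1 := by
    have h14 : 16 * e * p ^ 2 < p ^ 3 := by
      have : p ^ 3 = p * p ^ 2 := by ring
      rw [this]
      exact Nat.mul_lt_mul_of_pos_right hpe (by positivity)
    have h15 : (16 : ℝ) ^ (16 * e * p ^ 2) < 16 ^ (p ^ 3) :=
      pow_lt_pow_right₀ (by norm_num) h14
    calc (16 : ℝ) ^ (16 * e * p ^ 2) * (1 / 16) ^ (p ^ 3)
        < 16 ^ (p ^ 3) * (1 / 16) ^ (p ^ 3) := mul_lt_mul_of_pos_right h15 (by positivity)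
      _ = 1 := by
        rw [← mul_pow]
        norm_num
  have h16 : N ≤ N * ((16 : ℝ) ^ (16 * e * p ^ 2) * (1 / 16) ^ (p ^ 3)) := by
    refine h10.trans ?_
    calc (Xs.card : ℝ) * (N * (1 / 16) ^ (p ^ 3))
        ≤ 16 ^ (16 * e * p ^ 2) * (N * (1 / 16) ^ (p ^ 3)) :=
          mul_le_mul_of_nonneg_right h11 (by positivity)
      _ = _ := by ring
  nlinarith [mul_lt_mul_of_pos_left h13 hNpos]

end Pool.Agent.helper80.MV
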