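import Pool.Agent.helper80.MV.Onan
import Pool.Agent.helper80.MV.Union
import Pool.Agent.helper80.MV.ColB
import Pool.Agent.helper80.MV.Dense
import Pool.Agent.helper80.MV.KW
import Pool.Agent.helper80.MV.Thin

/-!
# MV-9 (Graph): the `K₄`-free graph (architect)

`G₀ = gr (inc p) c` with the colouring of `exists_coloring`; `R = 16 p²`, `b = 256 p`; by `exists_deg`
(`M = p³`) and `two_bi_le` the hypothesis of `kw` holds; `e' = 4 e + 1`, `z = k / (16 p)`, `t = p k`:
`isum ≤ 3 ^ t 2 ^ t`, so the number of independent sets of size `t` is at most `(96 p / k) ^ t`;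
`thin` with `w = k p³ / 200`.
-/

set_option autoImplicit false

namespace Pool.Agent.helper80.MV

open Finset

theorem Graph_count (p : ℕ) [Fact p.Prime] (e k : ℕ) (he : p ≤ 2 ^ e) (hpe : 16 * e < p)
    (hk0 : 1 ≤ k) (hk1 : 1024 * e * (4 * e + 1) ≤ k) (hk2 : k ≤ 16 * p)
    (G : SimpleGraph (Ln p))
    (hG : ∀ X : Finset (Ln p), X.card = 16 * p ^ 2 → 2 * p ^ 3 ≤ ed G X) :
    isum G univ ((k : ℝ) / (16 * p)) ≤ 6 ^ (p * k) := by
  have he0 : 1 ≤ e := by
    rcases Nat.eq_zero_or_pos e with h | h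
    · subst h
      have : p.Prime := Fact.out
      have := this.two_le
      simp at he
      omega
    · exact h
  have hp16 : 17 ≤ p := by omega
  have hp0 : (0 : ℝ) < p := by exact_mod_cast (by omega : 0 < p)
  have hk0' : (0 : ℝ) < k := by exact_mod_cast hk0
  have hdeg : ∀ A : Finset (Ln p), 16 * p ^ 2 ≤ A.card →
      ∃ x ∈ A, A.card ≤ 256 * p * dg G A x := by
    intro A hA
    have hR2 : 2 ≤ 16 * p ^ 2 := by
      have : 1 ≤ p ^ 2 := Nat.one_le_pow _ _ (by omega)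
      omega
    obtain ⟨x, hx, h⟩ := exists_deg G (16 * p ^ 2) (p ^ 3) hR2 hG A hA
    refine ⟨x, hx, ?_⟩
    have hp3 : 0 < p ^ 3 := by positivity
    refine Nat.le_of_mul_le_mul_left ?_ hp3
    calc p ^ 3 * A.card ≤ dg G A x * (16 * p ^ 2) ^ 2 := h
      _ = p ^ 3 * (256 * p * dg G A x) := by ring
  have hz0 : (0 : ℝ) ≤ (k : ℝ) / (16 * p) := by positivity
  have hz1 : (k : ℝ) / (16 * p) ≤ 1 := by
    rw [div_le_one (by positivity)]
    exact_mod_cast hk2
  have hcard : (univ : Finset (Ln p)).card ≤ p ^ 4 := by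
    rw [Finset.card_univ]
    exact card_Ln_le p
  have h16 : 16 * p ^ 2 ≤ p ^ 4 := by
    have : 16 ≤ p ^ 2 := by nlinarith
    calc 16 * p ^ 2 ≤ p ^ 2 * p ^ 2 := Nat.mul_le_mul_right _ this
      _ = p ^ 4 := by ring
  have hp4 : p ^ 4 ≤ 2 ^ (4 * e) := by
    calc p ^ 4 ≤ (2 ^ e) ^ 4 := Nat.pow_le_pow_left he 4
      _ = 2 ^ (4 * e) := by rw [← pow_mul, mul_comm]
  have hA : (univ : Finset (Ln p)).card + 16 * p ^ 2 ≤ 2 ^ (4 * e + 1) := by
    calc (univ : Finset (Ln p)).card + 16 * p ^ 2 ≤ p ^ 4 + p ^ 4 := Nat.add_le_add hcard h16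
      _ ≤ 2 ^ (4 * e) + 2 ^ (4 * e) := Nat.add_le_add hp4 hp4
      _ = 2 ^ (4 * e + 1) := by rw [pow_succ]; ring
  have hkw := kw G (16 * p ^ 2) (256 * p) (4 * e + 1) (by nlinarith) (by omega) (by omega) hdeg
    hz0 hz1 univ hA
  refine hkw.trans ?_
  have h1 : (1 + (k : ℝ) / (16 * p)) ^ (16 * p ^ 2) ≤ 3 ^ (p * k) := by
    have h2 : (1 + (k : ℝ) / (16 * p)) ^ (16 * p ^ 2) ≤
        Real.exp ((k : ℝ) / (16 * p)) ^ (16 * p ^ 2) := by
      apply pow_le_pow_left₀ (by positivity)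
      have := Real.add_one_le_exp ((k : ℝ) / (16 * p))
      linarith
    have h3 : Real.exp ((k : ℝ) / (16 * p)) ^ (16 * p ^ 2) = Real.exp 1 ^ (p * k) := by
      rw [← Real.exp_nat_mul, ← Real.exp_nat_mul]
      congr 1
      push_cast
      field_simp
    rw [h3] at h2
    refine h2.trans ?_
    apply pow_le_pow_left₀ (Real.exp_pos _).le
    have := Real.exp_one_lt_d9
    linarith
  have h2 : ((((univ : Finset (Ln p)).card : ℝ) + ((16 * p ^ 2 : ℕ) : ℝ)) /
      ((16 * p ^ 2 : ℕ) : ℝ)) ^ (2 * (256 * p) * (4 * e + 1)) ≤ 2 ^ (p * k) := by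
    have h3 : (((univ : Finset (Ln p)).card : ℝ) + ((16 * p ^ 2 : ℕ) : ℝ)) /
        ((16 * p ^ 2 : ℕ) : ℝ) ≤ 2 ^ (2 * e) := by
      have hpos : (0 : ℝ) < ((16 * p ^ 2 : ℕ) : ℝ) := by
        push_cast
        positivity
      rw [div_le_iff₀ hpos]
      have h4 : (univ : Finset (Ln p)).card + 16 * p ^ 2 ≤ 2 ^ (2 * e) * (16 * p ^ 2) := by
        have h5 : p ^ 2 ≤ 2 ^ (2 * e) := by
          calc p ^ 2 ≤ (2 ^ e) ^ 2 := Nat.pow_le_pow_left he 2
            _ = 2 ^ (2 * e) := by rw [← pow_mul, mul_comm]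
        calc (univ : Finset (Ln p)).card + 16 * p ^ 2 ≤ p ^ 4 + p ^ 4 := by omega
          _ ≤ p ^ 2 * (16 * p ^ 2) := by nlinarith [Nat.zero_le (p ^ 4)]
          _ ≤ 2 ^ (2 * e) * (16 * p ^ 2) := Nat.mul_le_mul_right _ h5
      exact_mod_cast h4
    calc ((((univ : Finset (Ln p)).card : ℝ) + ((16 * p ^ 2 : ℕ) : ℝ)) /
        ((16 * p ^ 2 : ℕ) : ℝ)) ^ (2 * (256 * p) * (4 * e + 1))
        ≤ (2 ^ (2 * e)) ^ (2 * (256 * p) * (4 * e + 1)) := by
          apply pow_le_pow_left₀ _ h3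
          positivity
      _ = 2 ^ (p * (1024 * e * (4 * e + 1))) := by
          rw [← pow_mul]
          congr 1
          ring
      _ ≤ 2 ^ (p * k) := by
          apply pow_le_pow_right₀ (by norm_num)
          exact Nat.mul_le_mul_left _ hk1
  calc (1 + (k : ℝ) / (16 * p)) ^ (16 * p ^ 2) *
        ((((univ : Finset (Ln p)).card : ℝ) + ((16 * p ^ 2 : ℕ) : ℝ)) /
          ((16 * p ^ 2 : ℕ) : ℝ)) ^ (2 * (256 * p) * (4 * e + 1))
      ≤ 3 ^ (p * k) * 2 ^ (p * k) := by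
        apply mul_le_mul h1 h2 (by positivity) (by positivity)
    _ = 6 ^ (p * k) := by
        rw [← mul_pow]
        norm_num

theorem r4_graph (p : ℕ) [Fact p.Prime] (e k : ℕ) (he : p ≤ 2 ^ e) (hpe : 16 * e < p)
    (hk1 : 1024 * e * (4 * e + 1) ≤ k) (hk2 : k ≤ 16 * p) :
    ∃ G : SimpleGraph (Fin (k * p ^ 3 / 200)), G.CliqueFree 4 ∧
      ∀ S : Finset (Fin (k * p ^ 3 / 200)), S.card = p * k → ¬ Ind G S := by
  classical
  have he0 : 1 ≤ e := by
    rcases Nat.eq_zero_or_pos e with h | h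
    · subst h
      have : p.Prime := Fact.out
      have := this.two_le
      simp at he
      omega
    · exact h
  have hp16 : 17 ≤ p := by omega
  have hk0 : 1 ≤ k := by nlinarith
  have hp0 : (0 : ℝ) < p := by exact_mod_cast (by omega : 0 < p)
  have hk0' : (0 : ℝ) < k := by exact_mod_cast hk0
  obtain ⟨c, hc⟩ := exists_coloring (inc p) p e (by omega) he hpe (card_Pt p) (card_Ln_le p)
    (sum_dp_ge p)
  set G := gr (inc p) c with hG
  have hed : ∀ X : Finset (Ln p), X.card = 16 * p ^ 2 → 2 * p ^ 3 ≤ ed G X := by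
    intro X hX
    exact (Nat.mul_le_mul_left 2 (hc X hX)).trans
      (two_bi_le (inc p) (fun l m w w' hlm h1 h2 h3 h4 => two_lines p hlm h1 h2 h3 h4) c X)
  have hisum := Graph_count p e k he hpe hk0 hk1 hk2 G hed
  set F : Finset (Finset (Ln p)) :=
    (univ : Finset (Ln p)).powerset.filter (fun S => Ind G S ∧ S.card = p * k) with hF
  have hz0 : (0 : ℝ) ≤ (k : ℝ) / (16 * p) := by positivity
  have hcount : (F.card : ℝ) * ((k : ℝ) / (16 * p)) ^ (p * k) ≤ 6 ^ (p * k) := by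
    refine le_trans ?_ hisum
    have := count_le G univ (p * k) hz0
    convert this
  set w := k * p ^ 3 / 200 with hw
  have hN : p ^ 4 ≤ (univ : Finset (Ln p)).card + p ^ 3 := by
    rw [Finset.card_univ]
    exact card_Ln_ge p
  have hp34 : 17 * p ^ 3 ≤ p ^ 4 := by
    calc 17 * p ^ 3 ≤ p * p ^ 3 := Nat.mul_le_mul_right _ hp16
      _ = p ^ 4 := by ring
  have hw200 : 200 * w ≤ k * p ^ 3 := Nat.mul_div_le _ _
  have hw16 : 200 * w ≤ 16 * p ^ 4 := by
    calc 200 * w ≤ k * p ^ 3 := hw200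
      _ ≤ 16 * p * p ^ 3 := Nat.mul_le_mul_right _ hk2
      _ = 16 * p ^ 4 := by ring
  have hwN : w ≤ (univ : Finset (Ln p)).card := by omega
  have hNpos : (0 : ℝ) < ((univ : Finset (Ln p)).card : ℝ) := by
    have : 0 < (univ : Finset (Ln p)).card := by
      have : 0 < p ^ 3 := by positivity
      omega
    exact_mod_cast this
  have ht : p * k ≠ 0 := by
    have : 0 < p * k := Nat.mul_pos (by omega) hk0
    omega
  have hlt : (F.card : ℝ) * ((w : ℝ) / ((univ : Finset (Ln p)).card : ℝ)) ^ (p * k) < 1 := by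
    have h1 : (w : ℝ) / ((univ : Finset (Ln p)).card : ℝ) <
        ((k : ℝ) / (16 * p)) * (1 / 6) := by
      rw [div_lt_iff₀ hNpos]
      have h2 : (200 : ℝ) * w ≤ k * p ^ 3 := by exact_mod_cast hw200
      have h3 : (p : ℝ) ^ 4 ≤ ((univ : Finset (Ln p)).card : ℝ) + p ^ 3 := by exact_mod_cast hN
      have h4 : (17 : ℝ) * p ^ 3 ≤ p ^ 4 := by exact_mod_cast hp34
      have h5 : (16 : ℝ) / 17 * p ^ 4 ≤ ((univ : Finset (Ln p)).card : ℝ) := by linarith
      have h6 : (k : ℝ) / (16 * p) * (1 / 6) * ((16 : ℝ) / 17 * p ^ 4) ≤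
          (k : ℝ) / (16 * p) * (1 / 6) * ((univ : Finset (Ln p)).card : ℝ) :=
        mul_le_mul_of_nonneg_left h5 (by positivity)
      have h7 : (k : ℝ) / (16 * p) * (1 / 6) * ((16 : ℝ) / 17 * p ^ 4) = k * p ^ 3 / 102 := by
        field_simp
        ring
      rw [h7] at h6
      have h8 : (0 : ℝ) < k * p ^ 3 := by positivity
      linarith
    have h2 : ((w : ℝ) / ((univ : Finset (Ln p)).card : ℝ)) ^ (p * k) <
        (((k : ℝ) / (16 * p)) * (1 / 6)) ^ (p * k) :=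
      pow_lt_pow_left₀ h1 (by positivity) ht
    rcases Nat.eq_zero_or_pos F.card with h0 | h0
    · rw [h0]
      simp
    · have h0' : (0 : ℝ) < F.card := by exact_mod_cast h0
      calc (F.card : ℝ) * ((w : ℝ) / ((univ : Finset (Ln p)).card : ℝ)) ^ (p * k)
          < (F.card : ℝ) * (((k : ℝ) / (16 * p)) * (1 / 6)) ^ (p * k) :=
            mul_lt_mul_of_pos_left h2 h0'
        _ = (F.card : ℝ) * ((k : ℝ) / (16 * p)) ^ (p * k) * (1 / 6) ^ (p * k) := by
            rw [mul_pow]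
            ring
        _ ≤ 6 ^ (p * k) * (1 / 6) ^ (p * k) :=
            mul_le_mul_of_nonneg_right hcount (by positivity)
        _ = 1 := by
            rw [← mul_pow]
            norm_num
  obtain ⟨W, -, hWc, hW⟩ := thin F (p * k) (fun S hS => by
    rw [hF, Finset.mem_filter] at hS
    exact hS.2.2) univ w hwN hlt
  let φ : Fin w ≃ W := (W.equivFinOfCardEq hWc).symm
  let g : Fin w → Ln p := fun i => (φ i : Ln p)
  have hg : Function.Injective g := fun i j h => φ.injective (Subtype.ext h)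
  refine ⟨G.comap g, ?_, ?_⟩
  · have hcf : G.CliqueFree 4 := gr_cliqueFree p c
    exact SimpleGraph.CliqueFree.comap ⟨(SimpleGraph.Embedding.comap ⟨g, hg⟩ G).toCopy⟩ hcf
  · intro S hS hInd
    have hmem : S.map ⟨g, hg⟩ ∈ F := by
      rw [hF, Finset.mem_filter]
      refine ⟨Finset.mem_powerset.mpr (Finset.subset_univ _), ?_, ?_⟩
      · intro x hx y hy
        rw [Finset.mem_map] at hx hy
        obtain ⟨i, hi, rfl⟩ := hx
        obtain ⟨j, hj, rfl⟩ := hy
        exact hInd i hi j hj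
      · rw [Finset.card_map, hS]
    apply hW _ hmem
    intro x hx
    rw [Finset.mem_map] at hx
    obtain ⟨i, _, rfl⟩ := hx
    exact (φ i).2

end Pool.Agent.helper80.MV
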