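import Pool.Agent.helper80.MV.Defs
import Pool.Agent.helper56.Irr.Final

/-!
# MV-10 (Ram): Ramsey numbers are finite, lower bounds from graphs

`r m n = sInf {N | ∀ G : SimpleGraph (Fin N), m ≤ α(G) ∨ n ≤ α(Gᶜ)}` (file `helper56/Irr/Defs.lean`).

PROOFS.  `ramsey_fin`: Erdős-Szekeres for arbitrary finite types: for all `m n` there is `N` such that
every graph on a finite type with at least `N` vertices has an independent set of size `m` or a
clique of size `n`; induction on `m + n`, take a vertex `x` and its neighbours / non-neighbours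
(`N(m, n) = N(m - 1, n) + N(m, n - 1) + 1`).  `lt_r4`: if `r 4 n ≤ N` then with `N' = r 4 n` (an element
of the set by `Nat.sInf_mem`) the graph `(Gᶜ).comap (Fin.castLE _)` on `Fin N'` gives an independent
set of size `4` in `Gᶜ`, i.e. a `4`-clique of `G`, or an independent set of `G` with `n` elements
(compare `helper56/Irr/Lower2.lean`, `lt_r`).
-/

set_option autoImplicit false

namespace Pool.Agent.helper80.MV

open Finset Pool.Agent.helper56.Irr

private theorem Ram_aux {V : Type} (H : SimpleGraph V) : ∀ (m a b : ℕ), a + b = m →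
    ∀ S : Finset V, 2 ^ m ≤ S.card →
    (∃ T ⊆ S, T.card = a ∧ ∀ x ∈ T, ∀ y ∈ T, x ≠ y → H.Adj x y) ∨
    (∃ T ⊆ S, T.card = b ∧ ∀ x ∈ T, ∀ y ∈ T, x ≠ y → ¬ H.Adj x y) := by
  classical
  intro m
  induction m with
  | zero =>
    intro a b hab S _
    left
    exact ⟨∅, empty_subset _, by simp; omega, by simp⟩
  | succ m ih =>
    intro a b hab S hS
    rcases Nat.eq_zero_or_pos a with ha | ha
    · left; exact ⟨∅, empty_subset _, by simp; omega, by simp⟩
    rcases Nat.eq_zero_or_pos b with hb | hb
    · right; exact ⟨∅, empty_subset _, by simp; omega, by simp⟩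
    have hpow : 2 ^ (m + 1) = 2 * 2 ^ m := by ring
    have hpm : 1 ≤ 2 ^ m := Nat.one_le_two_pow
    rw [hpow] at hS
    obtain ⟨v, hv⟩ : S.Nonempty := by rw [← card_pos]; omega
    set S1 := (S.erase v).filter (fun w => H.Adj v w) with hS1
    set S2 := (S.erase v).filter (fun w => ¬ H.Adj v w) with hS2
    have hsum : S1.card + S2.card = S.card - 1 := by
      rw [hS1, hS2, Finset.card_filter_add_card_filter_not, card_erase_of_mem hv]
    by_cases h1 : 2 ^ m ≤ S1.card
    · rcases ih (a - 1) b (by omega) S1 h1 with ⟨T, hT, hTc, hTa⟩ | ⟨T, hT, hTc, hTa⟩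
      · left
        have hTv : ∀ w ∈ T, w ∈ S ∧ w ≠ v ∧ H.Adj v w := by
          intro w hw
          have := hT hw
          rw [hS1, mem_filter, mem_erase] at this
          exact ⟨this.1.2, this.1.1, this.2⟩
        have hvT : v ∉ T := fun h => (hTv v h).2.1 rfl
        refine ⟨insert v T, ?_, ?_, ?_⟩
        · intro w hw
          rw [mem_insert] at hw
          rcases hw with rfl | hw
          · exact hv
          · exact (hTv w hw).1
        · rw [card_insert_of_notMem hvT]; omega
        · intro x hx y hy hxy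
          rw [mem_insert] at hx hy
          rcases hx with rfl | hx
          · rcases hy with rfl | hy
            · exact absurd rfl hxy
            · exact (hTv y hy).2.2
          · rcases hy with rfl | hy
            · exact (hTv x hx).2.2.symm
            · exact hTa x hx y hy hxy
      · right
        refine ⟨T, ?_, hTc, hTa⟩
        intro w hw
        have := hT hw
        rw [hS1, mem_filter, mem_erase] at this
        exact this.1.2
    · have h2 : 2 ^ m ≤ S2.card := by omega
      rcases ih a (b - 1) (by omega) S2 h2 with ⟨T, hT, hTc, hTa⟩ | ⟨T, hT, hTc, hTa⟩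
      · left
        refine ⟨T, ?_, hTc, hTa⟩
        intro w hw
        have := hT hw
        rw [hS2, mem_filter, mem_erase] at this
        exact this.1.2
      · right
        have hTv : ∀ w ∈ T, w ∈ S ∧ w ≠ v ∧ ¬ H.Adj v w := by
          intro w hw
          have := hT hw
          rw [hS2, mem_filter, mem_erase] at this
          exact ⟨this.1.2, this.1.1, this.2⟩
        have hvT : v ∉ T := fun h => (hTv v h).2.1 rfl
        refine ⟨insert v T, ?_, ?_, ?_⟩
        · intro w hw
          rw [mem_insert] at hw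
          rcases hw with rfl | hw
          · exact hv
          · exact (hTv w hw).1
        · rw [card_insert_of_notMem hvT]; omega
        · intro x hx y hy hxy
          rw [mem_insert] at hx hy
          rcases hx with rfl | hx
          · rcases hy with rfl | hy
            · exact absurd rfl hxy
            · exact (hTv y hy).2.2
          · rcases hy with rfl | hy
            · exact fun h => (hTv x hx).2.2 h.symm
            · exact hTa x hx y hy hxy

theorem ramsey_fin (m n : ℕ) :
    ∃ N : ℕ, ∀ (V : Type) [Fintype V], N ≤ Fintype.card V → ∀ G : SimpleGraph V,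
      (∃ S : Finset V, S.card = m ∧ G.IsIndepSet (S : Set V)) ∨
        ∃ S : Finset V, S.card = n ∧ G.IsClique (S : Set V) := by
  refine ⟨2 ^ (n + m), ?_⟩
  intro V _ hV G
  rcases Ram_aux G (n + m) n m rfl univ (by rwa [card_univ]) with ⟨T, _, hTc, hTa⟩ | ⟨T, _, hTc, hTa⟩
  · right
    refine ⟨T, hTc, ?_⟩
    intro x hx y hy hxy
    exact hTa x (mem_coe.1 hx) y (mem_coe.1 hy) hxy
  · left
    refine ⟨T, hTc, ?_⟩
    intro x hx y hy hxy
    exact hTa x (mem_coe.1 hx) y (mem_coe.1 hy) hxy

theorem ramsey_set_nonempty (m n : ℕ) :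
    {N | ∀ G : SimpleGraph (Fin N), m ≤ alphaP N G ∨ n ≤ alphaP N Gᶜ}.Nonempty := by
  obtain ⟨N, hN⟩ := ramsey_fin m n
  refine ⟨N, ?_⟩
  intro G
  rcases hN (Fin N) (by rw [Fintype.card_fin]) G with ⟨S, hS, hI⟩ | ⟨S, hS, hC⟩
  · left
    rw [← hS]
    exact hI.card_le_indepNum
  · right
    rw [← hS]
    have h1 : Gᶜ.IsIndepSet (S : Set (Fin N)) := by
      intro x hx y hy hxy
      rw [SimpleGraph.compl_adj, not_and, not_not]
      exact fun _ => hC hx hy hxy
    exact h1.card_le_indepNum

theorem lt_r4 {N n : ℕ} (G : SimpleGraph (Fin N)) (h1 : G.CliqueFree 4)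
    (h2 : ∀ S : Finset (Fin N), S.card = n → ¬ Ind G S) : N < r 4 n := by
  by_contra hcon
  rw [not_lt] at hcon
  have hmem := Nat.sInf_mem (ramsey_set_nonempty 4 n)
  have hr : r 4 n = sInf {N | ∀ G : SimpleGraph (Fin N), 4 ≤ alphaP N G ∨ n ≤ alphaP N Gᶜ} := rfl
  rw [← hr] at hmem
  have hinj : Function.Injective (Fin.castLE hcon) := Fin.castLE_injective hcon
  rcases hmem ((Gᶜ).comap (Fin.castLE hcon)) with h | h
  · obtain ⟨T, hT⟩ := SimpleGraph.exists_isNIndepSet_indepNum
      (G := (Gᶜ).comap (Fin.castLE hcon))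
    have h3 : 4 ≤ T.card := by rw [hT.2]; exact h
    obtain ⟨S, hST, hS⟩ := Finset.exists_subset_card_eq h3
    apply h1 (S.map ⟨Fin.castLE hcon, hinj⟩)
    refine ⟨?_, by rw [card_map, hS]⟩
    intro x hx y hy hxy
    rw [mem_coe, mem_map] at hx hy
    obtain ⟨x, hx, rfl⟩ := hx
    obtain ⟨y, hy, rfl⟩ := hy
    have hne : x ≠ y := fun h => hxy (by rw [h])
    have h4 : ¬ ((Gᶜ).comap (Fin.castLE hcon)).Adj x y :=
      hT.1 (mem_coe.2 (hST hx)) (mem_coe.2 (hST hy)) hne
    rw [SimpleGraph.comap_adj, SimpleGraph.compl_adj, not_and, not_not] at h4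
    exact h4 (fun h => hne (hinj h))
  · obtain ⟨T, hT⟩ := SimpleGraph.exists_isNIndepSet_indepNum
      (G := ((Gᶜ).comap (Fin.castLE hcon))ᶜ)
    have h3 : n ≤ T.card := by rw [hT.2]; exact h
    obtain ⟨S, hST, hS⟩ := Finset.exists_subset_card_eq h3
    apply h2 (S.map ⟨Fin.castLE hcon, hinj⟩) (by rw [card_map, hS])
    intro x hx y hy hxy
    rw [mem_map] at hx hy
    obtain ⟨x, hx, rfl⟩ := hx
    obtain ⟨y, hy, rfl⟩ := hy
    have hne : x ≠ y := by
      rintro rfl
      exact G.irrefl hxy
    have h4 : ¬ (((Gᶜ).comap (Fin.castLE hcon))ᶜ).Adj x y :=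
      hT.1 (mem_coe.2 (hST hx)) (mem_coe.2 (hST hy)) hne
    rw [SimpleGraph.compl_adj, not_and, not_not, SimpleGraph.comap_adj, SimpleGraph.compl_adj] at h4
    exact (h4 hne).2 hxy

end Pool.Agent.helper80.MV
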