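import Pool.Agent.helper80.MV.Graph
import Pool.Agent.helper80.MV.Ram

/-!
# MV-11 (Lower): `r(4,n) ≥ c n³ / (log n)⁴` and the limit of `v(4,n) / r(4,n)`

PROOFS.  `lower_at`: let `n` be large, `e = Nat.clog 2 n` (so `n ≤ 2 ^ e`), `k = 1024 e (4 e + 1)`,
`m = n / (2 k)`; by Bertrand (`Nat.exists_prime_lt_and_le_two_mul`) there is a prime `p` with
`m < p ≤ 2 m`; `p k ≤ 2 m k ≤ n`, `p ≤ n ≤ 2 ^ e`.  For large `n`: `16 e ≤ m` and `k ≤ 16 m`.
`r4_graph` gives a graph on `k p³ / 200` vertices without `4`-clique and without independent sets of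
size `p k`, hence without independent sets of size `n ≥ p k`; `lt_r4` gives
`k p³ / 200 < r 4 n`.  As `p > m`, `p ≥ m + 1 > n / (2 k)` (real division), so
`r 4 n ≥ k (n / (2k))³ / 200 = n³ / (1600 k²)`.
`r4_lower`: `k ≤ C (log n)²` for `n ≥ 2` (e.g. `e ≤ log n / log 2 + 1 ≤ 3 log n` for `n ≥ 2`... any
constant is fine).
`limit_v4`: `v 4 n ≤ 6 n ^ (8/3)` (`v_le`), compare `main_limit` in `helper56/Irr/Final.lean`;
`(log n)⁴ / n ^ (1/3) → 0` (`isLittleO_log_rpow_atTop` or `isLittleO_pow_log_id_atTop`).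
-/

set_option autoImplicit false

namespace Pool.Agent.helper80.MV

open Finset Filter Pool.Agent.helper56.Irr

private theorem Lower_growth (e : ℕ) (he : 50 ≤ e) :
    131072 * (e * (4 * e + 1)) ^ 2 ≤ 2 ^ (e - 1) := by
  induction e, he using Nat.le_induction with
  | base => norm_num
  | succ e he ih =>
    have h1 : 5 * ((e + 1) * (4 * (e + 1) + 1)) ≤ 7 * (e * (4 * e + 1)) := by nlinarith
    have h2 : 25 * ((e + 1) * (4 * (e + 1) + 1)) ^ 2 ≤ 49 * (e * (4 * e + 1)) ^ 2 := by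
      calc 25 * ((e + 1) * (4 * (e + 1) + 1)) ^ 2 = (5 * ((e + 1) * (4 * (e + 1) + 1))) ^ 2 := by
            ring
        _ ≤ (7 * (e * (4 * e + 1))) ^ 2 := Nat.pow_le_pow_left h1 2
        _ = 49 * (e * (4 * e + 1)) ^ 2 := by ring
    have h4 : 2 ^ (e + 1 - 1) = 2 * 2 ^ (e - 1) := by
      rw [← pow_succ']
      congr 1
      omega
    rw [h4]
    generalize ((e + 1) * (4 * (e + 1) + 1)) ^ 2 = A at h2 ⊢
    generalize (e * (4 * e + 1)) ^ 2 = B at h2 ih
    generalize 2 ^ (e - 1) = D at ih ⊢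
    omega

theorem lower_at : ∀ᶠ n : ℕ in atTop,
    (n : ℝ) ^ 3 / (1600 * ((1024 * (Nat.clog 2 n : ℝ) * (4 * (Nat.clog 2 n : ℝ) + 1))) ^ 2) ≤
      r 4 n := by
  filter_upwards [eventually_gt_atTop (2 ^ 49)] with n hn
  have hne : n ≤ 2 ^ Nat.clog 2 n := Nat.le_pow_clog (by norm_num) n
  have hlt : 2 ^ (Nat.clog 2 n - 1) < n := by
    have h := Nat.pow_pred_clog_lt_self (b := 2) (by norm_num) (x := n)
      (lt_of_le_of_lt (Nat.one_le_two_pow) hn)
    exact h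
  set e := Nat.clog 2 n with he
  have he50 : 50 ≤ e := by
    by_contra h
    have h1 : 2 ^ e ≤ 2 ^ 49 := Nat.pow_le_pow_right (by norm_num) (by omega)
    omega
  have hg := Lower_growth e he50
  set k' := e * (4 * e + 1) with hk'
  have hk'1 : 1 ≤ k' := by nlinarith
  have hek : e ≤ k' := by nlinarith
  set k := 1024 * e * (4 * e + 1) with hk
  have hkk : k = 1024 * k' := by rw [hk, hk']; ring
  have hk0 : 0 < 2 * k := by omega
  set m := n / (2 * k) with hm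
  have hm1 : 64 * k' ≤ m := by
    rw [hm, Nat.le_div_iff_mul_le hk0, hkk]
    calc 64 * k' * (2 * (1024 * k')) = 131072 * k' ^ 2 := by ring
      _ ≤ n := hg.trans hlt.le
  have hm0 : m ≠ 0 := by omega
  obtain ⟨p, hp, hmp, hp2⟩ := Nat.exists_prime_lt_and_le_two_mul m hm0
  have hpk : p * k ≤ n := by
    calc p * k ≤ 2 * m * k := Nat.mul_le_mul_right k hp2
      _ = m * (2 * k) := by ring
      _ ≤ n := Nat.div_mul_le_self n (2 * k)
  have hpn : p ≤ n := (Nat.le_mul_of_pos_right p (by omega)).trans hpk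
  have : Fact p.Prime := ⟨hp⟩
  obtain ⟨G, hG1, hG2⟩ := r4_graph p e k (hpn.trans hne) (by omega) le_rfl (by omega)
  have hr := lt_r4 (n := n) G hG1 (fun S hS hI => by
    obtain ⟨T, hTS, hT⟩ := Finset.exists_subset_card_eq (s := S) (n := p * k) (by omega)
    exact hG2 T hT fun x hx y hy => hI x (hTS hx) y (hTS hy))
  have hr2 : k * p ^ 3 < r 4 n * 200 := (Nat.div_lt_iff_lt_mul (by norm_num)).1 hr
  have hr3 : (k : ℝ) * (p : ℝ) ^ 3 ≤ r 4 n * 200 := by exact_mod_cast hr2.le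
  have hnp : n ≤ 2 * k * p := by
    have h1 : n < 2 * k * (n / (2 * k) + 1) := Nat.lt_mul_div_succ n hk0
    have h2 : 2 * k * (m + 1) ≤ 2 * k * p := Nat.mul_le_mul_left _ hmp
    exact h1.le.trans h2
  have hnp' : (n : ℝ) ≤ 2 * k * p := by exact_mod_cast hnp
  have hkr : (1024 * (e : ℝ) * (4 * (e : ℝ) + 1)) = (k : ℝ) := by
    rw [hk]
    push_cast
    ring
  have hkpos : (0 : ℝ) < k := by
    have : 0 < k := by omega
    exact_mod_cast this
  rw [hkr, div_le_iff₀ (by positivity)]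
  have h3 : (n : ℝ) ^ 3 ≤ (2 * k * p) ^ 3 := pow_le_pow_left₀ (by positivity) hnp' 3
  calc (n : ℝ) ^ 3 ≤ (2 * k * p) ^ 3 := h3
    _ = 8 * (k : ℝ) ^ 2 * (k * p ^ 3) := by ring
    _ ≤ 8 * (k : ℝ) ^ 2 * (r 4 n * 200) := mul_le_mul_of_nonneg_left hr3 (by positivity)
    _ = r 4 n * (1600 * (k : ℝ) ^ 2) := by ring

/-- Mattheus and Verstraete. -/
theorem r4_lower : ∃ C : ℝ, 0 < C ∧ ∀ᶠ n : ℕ in atTop,
    C * (n : ℝ) ^ 3 / (Real.log n) ^ 4 ≤ r 4 n := by
  refine ⟨1 / (1600 * 46080 ^ 2), by norm_num, ?_⟩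
  filter_upwards [lower_at, eventually_ge_atTop 3] with n hn hn3
  refine le_trans ?_ hn
  have hn3' : (3 : ℝ) ≤ n := by exact_mod_cast hn3
  have hlog1 : 1 ≤ Real.log n := by
    have h1 : Real.exp 1 ≤ n := by linarith [Real.exp_one_lt_d9]
    calc (1 : ℝ) = Real.log (Real.exp 1) := (Real.log_exp 1).symm
      _ ≤ Real.log n := Real.log_le_log (Real.exp_pos 1) h1
  have hlt : 2 ^ (Nat.clog 2 n - 1) < n := by
    have h := Nat.pow_pred_clog_lt_self (b := 2) (by norm_num) (x := n) (by omega)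
    exact h
  have he1 : 1 ≤ Nat.clog 2 n := Nat.clog_pos (by norm_num) (by omega)
  set e := Nat.clog 2 n with he
  have he1' : (1 : ℝ) ≤ e := by exact_mod_cast he1
  have h2 : ((e : ℝ) - 1) * Real.log 2 ≤ Real.log n := by
    have h3 : ((2 : ℝ)) ^ (e - 1) ≤ n := by exact_mod_cast hlt.le
    have h4 := Real.log_le_log (by positivity) h3
    rw [Real.log_pow, Nat.cast_sub he1, Nat.cast_one] at h4
    exact h4
  have h5 : (e : ℝ) ≤ 3 * Real.log n := by
    have h6 := Real.log_two_gt_d9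
    nlinarith
  have hpos : (0 : ℝ) < Real.log n := by linarith
  have hk : 1024 * (e : ℝ) * (4 * (e : ℝ) + 1) ≤ 46080 * Real.log n ^ 2 := by
    calc 1024 * (e : ℝ) * (4 * (e : ℝ) + 1) ≤ 1024 * (e : ℝ) * (5 * (e : ℝ)) := by
          apply mul_le_mul_of_nonneg_left _ (by positivity)
          linarith
      _ = 5120 * (e : ℝ) ^ 2 := by ring
      _ ≤ 5120 * (3 * Real.log n) ^ 2 := by
          apply mul_le_mul_of_nonneg_left _ (by norm_num)
          exact pow_le_pow_left₀ (by positivity) h5 2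
      _ = 46080 * Real.log n ^ 2 := by ring
  have hk0 : 0 < 1024 * (e : ℝ) * (4 * (e : ℝ) + 1) := by positivity
  have h7 : (1024 * (e : ℝ) * (4 * (e : ℝ) + 1)) ^ 2 ≤ (46080 * Real.log n ^ 2) ^ 2 :=
    pow_le_pow_left₀ hk0.le hk 2
  have h8 : 1 / (1600 * 46080 ^ 2) * (n : ℝ) ^ 3 / Real.log n ^ 4 =
      (n : ℝ) ^ 3 / (1600 * (46080 * Real.log n ^ 2) ^ 2) := by
    field_simp
  rw [h8]
  apply div_le_div_of_nonneg_left (by positivity) (by positivity)
  exact mul_le_mul_of_nonneg_left h7 (by norm_num)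

theorem limit_v4 : Tendsto (fun n : ℕ => (v 4 n : ℝ) / (r 4 n : ℝ)) atTop (nhds 0) := by
  obtain ⟨C, hC, hr⟩ := r4_lower
  have h1 : Tendsto (fun n : ℕ => (6 / C : ℝ) * (n : ℝ) ^ (-((1 : ℝ) / 6))) atTop (nhds 0) := by
    have h := (tendsto_rpow_neg_atTop (show (0 : ℝ) < 1 / 6 by norm_num)).comp
      (tendsto_natCast_atTop_atTop (R := ℝ))
    have h' := h.const_mul (6 / C)
    rw [mul_zero] at h'
    exact h'
  have hlog : ∀ᶠ n : ℕ in atTop, Real.log n ≤ (n : ℝ) ^ ((1 : ℝ) / 24) := by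
    have h := (isLittleO_log_rpow_atTop (show (0 : ℝ) < 1 / 24 by norm_num)).def
      (show (0 : ℝ) < 1 by norm_num)
    have h' := tendsto_natCast_atTop_atTop (R := ℝ) |>.eventually h
    filter_upwards [h', eventually_ge_atTop 1] with n hn hn1
    have hn1' : (1 : ℝ) ≤ n := by exact_mod_cast hn1
    rw [Real.norm_of_nonneg (Real.log_nonneg hn1'), Real.norm_of_nonneg (by positivity),
      one_mul] at hn
    exact hn
  refine squeeze_zero' (Eventually.of_forall (fun n => by positivity)) ?_ h1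
  filter_upwards [hr, hlog, eventually_ge_atTop 2] with n hn hl hn2
  have hn2' : (2 : ℝ) ≤ n := by exact_mod_cast hn2
  have hnpos : (0 : ℝ) < n := by linarith
  have hlpos : 0 < Real.log n := Real.log_pos (by linarith)
  have hv := v_le (m := 4) (n := n) (by norm_num) (by omega)
  have hrpos : (0 : ℝ) < r 4 n := lt_of_lt_of_le (by positivity) hn
  rw [div_le_iff₀ hrpos]
  have hl4 : Real.log n ^ 4 ≤ (n : ℝ) ^ ((1 : ℝ) / 6) := by
    calc Real.log n ^ 4 ≤ ((n : ℝ) ^ ((1 : ℝ) / 24)) ^ 4 := pow_le_pow_left₀ hlpos.le hl 4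
      _ = (n : ℝ) ^ ((1 : ℝ) / 6) := by
        rw [← Real.rpow_natCast, ← Real.rpow_mul hnpos.le]
        norm_num
  have h3 : C * (n : ℝ) ^ 3 ≤ r 4 n * (n : ℝ) ^ ((1 : ℝ) / 6) := by
    rw [div_le_iff₀ (by positivity)] at hn
    exact hn.trans (mul_le_mul_of_nonneg_left hl4 hrpos.le)
  calc (v 4 n : ℝ) ≤ 6 * (n : ℝ) ^ (((4 : ℕ) : ℝ) - 4 / 3) := hv
    _ = 6 / C * (n : ℝ) ^ (-((1 : ℝ) / 6)) * (C * (n : ℝ) ^ 3 * (n : ℝ) ^ (-((1 : ℝ) / 6))) := by
        have h2 : (n : ℝ) ^ (((4 : ℕ) : ℝ) - 4 / 3)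
            = (n : ℝ) ^ (-((1 : ℝ) / 6)) * ((n : ℝ) ^ 3 * (n : ℝ) ^ (-((1 : ℝ) / 6))) := by
          rw [← Real.rpow_natCast, ← Real.rpow_add hnpos, ← Real.rpow_add hnpos]
          norm_num
        rw [h2]
        field_simp
    _ ≤ 6 / C * (n : ℝ) ^ (-((1 : ℝ) / 6)) *
        (r 4 n * (n : ℝ) ^ ((1 : ℝ) / 6) * (n : ℝ) ^ (-((1 : ℝ) / 6))) := by
        apply mul_le_mul_of_nonneg_left _ (by positivity)
        exact mul_le_mul_of_nonneg_right h3 (by positivity)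
    _ = 6 / C * (n : ℝ) ^ (-((1 : ℝ) / 6)) * r 4 n := by
        rw [mul_assoc (r 4 n : ℝ), ← Real.rpow_add hnpos]
        norm_num

end Pool.Agent.helper80.MV
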