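import Pool.Agent.helper80.MV.Ram

/-!
# MV-12 (WV): the irredundance-domination numbers `w(m,n) ≤ v(m,n)`

PROOFS.  `alpha_le_gamma`: an independent set of maximum size is a minimal dominating set.
`gamma_le_ir`: a minimal dominating set `X` is irredundant: if `x ∈ X` had no private neighbour, i.e.
every `y ∈ N[x]` were equal or adjacent to some `z ∈ X`, `z ≠ x`, then `X \ x` would be dominating.
(All parameters are `sSup` of sets of numbers bounded by the number of vertices;
`SimpleGraph.indepNum` is the size of a largest independent set.)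
`v_set_nonempty`: see the proof of `v_le` in `helper56/Irr/Upper3.lean`.
`w_le_v`: `Nat.sInf_le` with the element `Nat.sInf_mem (v_set_nonempty ..)`.
-/

set_option autoImplicit false

namespace Pool.Agent.helper80.MV

open Finset Pool.Agent.helper56.Irr

/-- `X` is irredundant in `G`: for every `x ∈ X` the set `N[x] \ N[X \ {x}]` is not empty. -/
def Irredundant {V : Type*} (G : SimpleGraph V) (X : Finset V) : Prop :=
  ∀ x ∈ X, ∃ y, (y = x ∨ G.Adj x y) ∧ ∀ z ∈ X, z ≠ x → y ≠ z ∧ ¬ G.Adj z y

/-- The upper irredundance number: the largest size of an irredundant set. -/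
noncomputable def upperIR {V : Type*} (G : SimpleGraph V) : ℕ :=
  sSup {k | ∃ X : Finset V, Irredundant G X ∧ X.card = k}

/-- The upper irredundance number as a graph parameter. -/
noncomputable def irP (N : ℕ) (G : SimpleGraph (Fin N)) : ℕ := upperIR G

/-- The irredundant-domination Ramsey number `w(m,n)`. -/
noncomputable def w (m n : ℕ) : ℕ := ramsey irP gammaP m n

theorem alpha_le_gamma (N : ℕ) (G : SimpleGraph (Fin N)) : alphaP N G ≤ gammaP N G := by
  classical
  obtain ⟨S, hS⟩ := G.exists_isNIndepSet_indepNum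
  have hcard : S.card = G.indepNum := hS.card_eq
  have hind : G.IsIndepSet (S : Set (Fin N)) := hS.isIndepSet
  have hmd : MinDominating G S := by
    constructor
    · intro v hv
      by_contra hcon
      push Not at hcon
      have h1 : G.IsIndepSet ((insert v S : Finset (Fin N)) : Set (Fin N)) := by
        intro x hx y hy hxy hadj
        rw [Finset.mem_coe, Finset.mem_insert] at hx hy
        rcases hx with rfl | hx
        · rcases hy with rfl | hy
          · exact hxy rfl
          · exact hcon y hy hadj.symm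
        · rcases hy with rfl | hy
          · exact hcon x hx hadj
          · exact hind hx hy hxy hadj
      have h2 := h1.card_le_indepNum
      rw [Finset.card_insert_of_notMem hv, hcard] at h2
      omega
    · intro Y hY hdom
      obtain ⟨x, hxS, hxY⟩ := Finset.exists_of_ssubset hY
      obtain ⟨y, hyY, hadj⟩ := hdom x hxY
      exact hind (hY.subset hyY) hxS hadj.ne hadj
  show G.indepNum ≤ upperDom G
  rw [← hcard]
  exact minDominating_le_upperDom hmd

theorem gamma_le_ir (N : ℕ) (G : SimpleGraph (Fin N)) : gammaP N G ≤ irP N G := by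
  classical
  show upperDom G ≤ upperIR G
  apply csSup_le'
  rintro k ⟨X, hX, rfl⟩
  apply le_csSup
  · refine ⟨N, ?_⟩
    rintro k ⟨Y, _, rfl⟩
    simpa using Finset.card_le_univ Y
  · refine ⟨X, ?_, rfl⟩
    intro x hx
    have h1 := hX.2 (X.erase x) (Finset.erase_ssubset hx)
    unfold Dominating at h1
    push Not at h1
    obtain ⟨v, hv, hvz⟩ := h1
    refine ⟨v, ?_, ?_⟩
    · by_cases hvx : v = x
      · exact Or.inl hvx
      · right
        have hvX : v ∉ X := fun h => hv (Finset.mem_erase.2 ⟨hvx, h⟩)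
        obtain ⟨z, hz, hadj⟩ := hX.1 v hvX
        by_cases hzx : z = x
        · rw [← hzx]; exact hadj
        · exact absurd hadj (hvz z (Finset.mem_erase.2 ⟨hzx, hz⟩))
    · intro z hz hzx
      have hz' : z ∈ X.erase x := Finset.mem_erase.2 ⟨hzx, hz⟩
      exact ⟨fun h => hv (h ▸ hz'), hvz z hz'⟩

theorem v_set_nonempty (m n : ℕ) (hm : 3 ≤ m) (hn : 1 ≤ n) :
    {N | ∀ G : SimpleGraph (Fin N), m ≤ gammaP N G ∨ n ≤ alphaP N Gᶜ}.Nonempty := by
  have hn' : (1 : ℝ) ≤ n := by exact_mod_cast hn
  set z : ℝ := (n : ℝ) ^ ((m : ℝ) - 4 / 3) with hz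
  refine ⟨⌊5 * z⌋₊ + 1, ?_⟩
  intro G
  by_contra hcon
  have h2 := card_le_general m hm (Fin (⌊5 * z⌋₊ + 1)) Gᶜ n hn (failing_of_not hcon)
  rw [Fintype.card_fin, ← hz] at h2
  push_cast at h2
  have := Nat.lt_floor_add_one (5 * z)
  linarith

theorem w_le_v (m n : ℕ) (hm : 3 ≤ m) (hn : 1 ≤ n) : w m n ≤ v m n := by
  apply Nat.sInf_le
  intro G
  rcases (Nat.sInf_mem (v_set_nonempty m n hm hn)) G with h | h
  · exact Or.inl (h.trans (gamma_le_ir _ G))
  · exact Or.inr (h.trans (alpha_le_gamma _ Gᶜ))

end Pool.Agent.helper80.MV
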