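import Pool.Agent.helper80.MV.Lower
import Pool.Agent.helper80.MV.WV

/-!
# MV-13 (Main): the limits for the pairs `(v, r)`, `(w, r)` and `m = 3, 4` (architect)
-/

set_option autoImplicit false

namespace Pool.Agent.helper80.MV

open Filter Pool.Agent.helper56.Irr

theorem limits (m : ℕ) (hm : m = 3 ∨ m = 4) :
    Tendsto (fun n : ℕ => (v m n : ℝ) / (r m n : ℝ)) atTop (nhds 0) ∧
      Tendsto (fun n : ℕ => (w m n : ℝ) / (r m n : ℝ)) atTop (nhds 0) := by
  have h1 : Tendsto (fun n : ℕ => (v m n : ℝ) / (r m n : ℝ)) atTop (nhds 0) := by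
    rcases hm with rfl | rfl
    · exact main_limit
    · exact limit_v4
  refine ⟨h1, ?_⟩
  refine squeeze_zero' (Eventually.of_forall fun n => by positivity) ?_ h1
  filter_upwards [eventually_ge_atTop 1] with n hn
  have h2 : (w m n : ℝ) ≤ v m n := by
    exact_mod_cast w_le_v m n (by omega) hn
  exact div_le_div_of_nonneg_right h2 (by positivity)

end Pool.Agent.helper80.MV
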