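import Mathlib

/-!
# MV-3a (OnanA): the algebraic identity behind O'Nan's theorem

PROOFS.  `onan_alg`: put `h_ij = x_i + y_i * Y_j + X_j`.  The determinant of the `4 × 4` matrix
`(h_ij)` is `0` (the matrix is a product of a `4 × 3` and a `3 × 4` matrix; in Lean: write out the 24
terms and use `ring`).  All `h_ij` are nonzero because `h_ij h_ji = h_ii h_jj ≠ 0`.  Write
`h_ii = r_i`, `h_1j = z_j` (`j = 2, 3, 4`), so `h_j1 = r_1 r_j / z_j`; define `a, b, c` by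
`h_12 h_23 h_31 = a r_1 r_2 r_3`, `h_12 h_24 h_41 = b r_1 r_2 r_4`, `h_13 h_34 h_41 = c r_1 r_3 r_4`.
Then `h_23 = a r_2 z_3 / z_2`, `h_32 = r_3 z_2 / (a z_3)`, `h_24 = b r_2 z_4 / z_2`,
`h_42 = r_4 z_2 / (b z_4)`, `h_34 = c r_3 z_4 / z_3`, `h_43 = r_4 z_3 / (c z_4)`, and
`det = ± r_1 r_2 r_3 r_4 (a - 1) (b - 1) (c - 1) (a c - b) / (a b c)` (`field_simp; ring`).  So
`a = 1` or `b = 1` or `c = 1` or `a c = b`; the last case is
`h_23 h_34 h_42 = (a c / b) r_2 r_3 r_4 = r_2 r_3 r_4`.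
-/

set_option autoImplicit false

namespace Pool.Agent.helper80.MV

/-- the determinant of a `4 × 4` matrix, written out -/
private def det4 {F : Type} [Field F] (m00 m01 m02 m03 m10 m11 m12 m13 m20 m21 m22 m23 m30 m31 m32 m33 : F) : F :=
    m00 * m11 * m22 * m33 - m00 * m11 * m23 * m32 - m00 * m12 * m21 * m33 + m00 * m12 * m23 *
    m31 + m00 * m13 * m21 * m32 - m00 * m13 * m22 * m31 - m01 * m10 * m22 * m33 + m01 * m10 *
    m23 * m32 + m01 * m12 * m20 * m33 - m01 * m12 * m23 * m30 - m01 * m13 * m20 * m32 + m01 *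
    m13 * m22 * m30 + m02 * m10 * m21 * m33 - m02 * m10 * m23 * m31 - m02 * m11 * m20 * m33 +
    m02 * m11 * m23 * m30 + m02 * m13 * m20 * m31 - m02 * m13 * m21 * m30 - m03 * m10 * m21 *
    m32 + m03 * m10 * m22 * m31 + m03 * m11 * m20 * m32 - m03 * m11 * m22 * m30 - m03 * m12 *
    m20 * m31 + m03 * m12 * m21 * m30

private theorem det4_rank {F : Type} [Field F] (x0 x1 x2 x3 y0 y1 y2 y3 X0 X1 X2 X3 Y0 Y1 Y2 Y3 : F) :
    det4 (x0 + y0 * Y0 + X0) (x0 + y0 * Y1 + X1) (x0 + y0 * Y2 + X2) (x0 + y0 * Y3 + X3)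
      (x1 + y1 * Y0 + X0) (x1 + y1 * Y1 + X1) (x1 + y1 * Y2 + X2) (x1 + y1 * Y3 + X3)
      (x2 + y2 * Y0 + X0) (x2 + y2 * Y1 + X1) (x2 + y2 * Y2 + X2) (x2 + y2 * Y3 + X3)
      (x3 + y3 * Y0 + X0) (x3 + y3 * Y1 + X1) (x3 + y3 * Y2 + X2) (x3 + y3 * Y3 + X3) = 0 := by
  unfold det4
  ring

private theorem det4_factor {F : Type} [Field F] {r1 r2 r3 r4 z2 z3 z4 a b c : F}
    (z2n : z2 ≠ 0) (z3n : z3 ≠ 0) (z4n : z4 ≠ 0) (an : a ≠ 0) (bn : b ≠ 0) (cn : c ≠ 0) :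
    a * b * c * det4 r1 z2 z3 z4 (r1 * r2 / z2) r2 (a * r2 * z3 / z2) (b * r2 * z4 / z2)
      (r1 * r3 / z3) (r3 * z2 / (a * z3)) r3 (c * r3 * z4 / z3)
      (r1 * r4 / z4) (r4 * z2 / (b * z4)) (r4 * z3 / (c * z4)) r4 =
    - (r1 * r2 * r3 * r4 * ((a - 1) * ((b - 1) * ((c - 1) * (a * c - b))))) := by
  unfold det4
  field_simp
  ring

theorem onan_alg {F : Type} [Field F] (x y X Y : Fin 4 → F) (h : Fin 4 → Fin 4 → F)
    (hh : ∀ i j, h i j = x i + y i * Y j + X j) (h0 : ∀ i, h i i ≠ 0)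
    (hm : ∀ i j, h i j * h j i = h i i * h j j) :
    h 0 1 * h 1 2 * h 2 0 = h 0 0 * h 1 1 * h 2 2 ∨
    h 0 1 * h 1 3 * h 3 0 = h 0 0 * h 1 1 * h 3 3 ∨
    h 0 2 * h 2 3 * h 3 0 = h 0 0 * h 2 2 * h 3 3 ∨
    h 1 2 * h 2 3 * h 3 1 = h 1 1 * h 2 2 * h 3 3 := by
  have nz : ∀ i j, h i j ≠ 0 := by
    intro i j hij
    have := hm i j
    rw [hij, zero_mul] at this
    rcases mul_eq_zero.1 this.symm with h1 | h1
    · exact h0 i h1
    · exact h0 j h1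
  have hdet : det4 (h 0 0) (h 0 1) (h 0 2) (h 0 3) (h 1 0) (h 1 1) (h 1 2) (h 1 3)
      (h 2 0) (h 2 1) (h 2 2) (h 2 3) (h 3 0) (h 3 1) (h 3 2) (h 3 3) = 0 := by
    simp only [hh]
    exact det4_rank _ _ _ _ _ _ _ _ _ _ _ _ _ _ _ _
  have e10 : h 1 0 = h 0 0 * h 1 1 / h 0 1 := by
    rw [eq_div_iff (nz 0 1), mul_comm, hm 0 1]
  have e20 : h 2 0 = h 0 0 * h 2 2 / h 0 2 := by
    rw [eq_div_iff (nz 0 2), mul_comm, hm 0 2]
  have e30 : h 3 0 = h 0 0 * h 3 3 / h 0 3 := by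
    rw [eq_div_iff (nz 0 3), mul_comm, hm 0 3]
  have n0 := h0 0
  have n1 := h0 1
  have n2 := h0 2
  have n3 := h0 3
  have n01 := nz 0 1
  have n02 := nz 0 2
  have n03 := nz 0 3
  have n12 := nz 1 2
  have n13 := nz 1 3
  have n23 := nz 2 3
  obtain ⟨a, ha⟩ : ∃ a, a = h 0 1 * h 1 2 / (h 0 2 * h 1 1) := ⟨_, rfl⟩
  obtain ⟨b, hb⟩ : ∃ b, b = h 0 1 * h 1 3 / (h 0 3 * h 1 1) := ⟨_, rfl⟩
  obtain ⟨c, hc⟩ : ∃ c, c = h 0 2 * h 2 3 / (h 0 3 * h 2 2) := ⟨_, rfl⟩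
  have an : a ≠ 0 := by
    rw [ha]; exact div_ne_zero (mul_ne_zero n01 n12) (mul_ne_zero n02 n1)
  have bn : b ≠ 0 := by
    rw [hb]; exact div_ne_zero (mul_ne_zero n01 n13) (mul_ne_zero n03 n1)
  have cn : c ≠ 0 := by
    rw [hc]; exact div_ne_zero (mul_ne_zero n02 n23) (mul_ne_zero n03 n2)
  have e12 : h 1 2 = a * h 1 1 * h 0 2 / h 0 1 := by
    rw [ha]; field_simp
  have e13 : h 1 3 = b * h 1 1 * h 0 3 / h 0 1 := by
    rw [hb]; field_simp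
  have e23 : h 2 3 = c * h 2 2 * h 0 3 / h 0 2 := by
    rw [hc]; field_simp
  have e21 : h 2 1 = h 2 2 * h 0 1 / (a * h 0 2) := by
    have h1 : h 2 1 = h 1 1 * h 2 2 / h 1 2 := by
      rw [eq_div_iff (nz 1 2), mul_comm, hm 1 2]
    rw [h1, ha]; field_simp
  have e31 : h 3 1 = h 3 3 * h 0 1 / (b * h 0 3) := by
    have h1 : h 3 1 = h 1 1 * h 3 3 / h 1 3 := by
      rw [eq_div_iff (nz 1 3), mul_comm, hm 1 3]
    rw [h1, hb]; field_simp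
  have e32 : h 3 2 = h 3 3 * h 0 2 / (c * h 0 3) := by
    have h1 : h 3 2 = h 2 2 * h 3 3 / h 2 3 := by
      rw [eq_div_iff (nz 2 3), mul_comm, hm 2 3]
    rw [h1, hc]; field_simp
  have key := det4_factor (r1 := h 0 0) (r2 := h 1 1) (r3 := h 2 2) (r4 := h 3 3) n01 n02 n03
    an bn cn
  rw [← e10, ← e12, ← e13, ← e20, ← e21, ← e23, ← e30, ← e31, ← e32, hdet, mul_zero] at key
  have key2 : (a - 1) * ((b - 1) * ((c - 1) * (a * c - b))) = 0 := by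
    have h1 := neg_eq_zero.1 key.symm
    rcases mul_eq_zero.1 h1 with h2 | h2
    · exact absurd h2 (mul_ne_zero (mul_ne_zero (mul_ne_zero n0 n1) n2) n3)
    · exact h2
  rcases mul_eq_zero.1 key2 with h1 | h1
  · left
    have h2 : a = 1 := sub_eq_zero.1 h1
    rw [e12, e20, h2]; field_simp
  rcases mul_eq_zero.1 h1 with h1 | h1
  · right; left
    have h2 : b = 1 := sub_eq_zero.1 h1
    rw [e13, e30, h2]; field_simp
  rcases mul_eq_zero.1 h1 with h1 | h1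
  · right; right; left
    have h2 : c = 1 := sub_eq_zero.1 h1
    rw [e23, e30, h2]; field_simp
  · right; right; right
    have h2 : a * c = b := sub_eq_zero.1 h1
    rw [e12, e23, e31]
    rw [← h2] 
    field_simp

end Pool.Agent.helper80.MV
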