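import Pool.Agent.helper80.MV.Geo
import Pool.Agent.helper80.MV.OnanA

/-!
# MV-3b (Onan): four lines which meet pairwise have three through the same point

PROOFS.  `meet`: if the lines `l`, `m` meet in `w = (a, b)` then, with `u = y_l - b`, `u' = y_m - b`,
`h(l, m) = u u'^p`, `h(l, l) = u u^p`, `h(m, m) = u' u'^p`.  (Use `x = - y b^p - a^p`,
`a + a^p = - b b^p`.)
`conc`: let `l₁, l₂` meet in `w`, let `l₁, l₃` meet, and let
`h(l₁,l₂) h(l₂,l₃) h(l₃,l₁) = h(l₁,l₁) h(l₂,l₂) h(l₃,l₃)`.  Put `s = x₃ + y₃ b^p + a^p`, `u_i = y_i - b`: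
`h(l₁,l₃) = s^p + u₁ u₃^p`, `h(l₃,l₁) = s + u₃ u₁^p`, `h(l₂,l₃) = s^p + u₂ u₃^p`,
`h(l₁,l₁) h(l₃,l₃) = h(l₁,l₃) h(l₃,l₁)` by `meet`; dividing gives `u₁ (s^p + u₂ u₃^p) =
u₂ (s^p + u₁ u₃^p)`, i.e. `(u₁ - u₂) s^p = 0`; `u₁ = u₂` would give `l₁ = l₂`; so `s = 0`.
`onan`: from `onan_alg` (file `OnanA`; with `X = x ^ p`, `Y = y ^ p`) and `conc`, `two_lines`.
`gr_cliqueFree`: a `K₄` gives four lines which meet pairwise; by `onan` three of them pass through
one point `w`, by `two_lines` all their meeting points are `w`, so the three colours at `w` are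
pairwise different: impossible in `Bool`.
-/

set_option autoImplicit false

namespace Pool.Agent.helper80.MV

open Finset

/-- the Hermitian form -/
noncomputable def hf (p : ℕ) [Fact p.Prime] (l m : K p × K p) : K p :=
  l.1 + l.2 * m.2 ^ p + m.1 ^ p

variable (p : ℕ) [Fact p.Prime]

theorem hf_self_ne (l : Ln p) : hf p l.1 l.1 ≠ 0 := by
  have h := l.2
  intro h0
  apply h
  unfold hf at h0
  unfold tr nm
  linear_combination h0

/-- the conjugate of the first coordinate of a line through `w` -/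
private theorem fst_pow {l : Ln p} {w : Pt p} (h : inc p l w) :
    l.1.1 ^ p = - (l.1.2 ^ p * w.1.2 + w.1.1) := by
  unfold inc at h
  have h1 : l.1.1 = - (l.1.2 * w.1.2 ^ p + w.1.1 ^ p) := by
    rw [eq_neg_iff_add_eq_zero, ← add_assoc]
    exact h
  rw [h1, neg_pow_K, add_pow_K, mul_pow, pow_pow_K, pow_pow_K]

private theorem pt_eq (w : Pt p) : w.1.1 + w.1.1 ^ p + w.1.2 * w.1.2 ^ p = 0 := w.2

theorem meet {l m : Ln p} {w : Pt p} (h1 : inc p l w) (h2 : inc p m w) :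
    hf p l.1 m.1 = (l.1.2 - w.1.2) * (m.1.2 - w.1.2) ^ p := by
  have e1 := fst_pow p h2
  have e2 := pt_eq p w
  unfold inc at h1
  unfold hf
  rw [e1, sub_pow_K]
  linear_combination h1 - e2

theorem meet_mul {l m : Ln p} {w : Pt p} (h1 : inc p l w) (h2 : inc p m w) :
    hf p l.1 m.1 * hf p m.1 l.1 = hf p l.1 l.1 * hf p m.1 m.1 := by
  rw [meet p h1 h2, meet p h2 h1, meet p h1 h1, meet p h2 h2]
  ring

private theorem hf_third {l m : Ln p} {w : Pt p} (h1 : inc p l w) :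
    hf p l.1 m.1 = (m.1.1 + m.1.2 * w.1.2 ^ p + w.1.1 ^ p) ^ p +
      (l.1.2 - w.1.2) * (m.1.2 - w.1.2) ^ p := by
  have e2 := pt_eq p w
  unfold inc at h1
  unfold hf
  rw [add_pow_K, add_pow_K, mul_pow, pow_pow_K, pow_pow_K, sub_pow_K]
  linear_combination h1 - e2

theorem conc {l₁ l₂ l₃ : Ln p} (h12 : l₁ ≠ l₂) {w w' : Pt p} (h1 : inc p l₁ w) (h2 : inc p l₂ w)
    (h3 : inc p l₁ w') (h4 : inc p l₃ w')
    (h : hf p l₁.1 l₂.1 * hf p l₂.1 l₃.1 * hf p l₃.1 l₁.1 =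
      hf p l₁.1 l₁.1 * hf p l₂.1 l₂.1 * hf p l₃.1 l₃.1) : inc p l₃ w := by
  have hp : p ≠ 0 := (Fact.out : p.Prime).ne_zero
  have hm := meet_mul p h3 h4
  have n1 := hf_self_ne p l₁
  have n2 := hf_self_ne p l₂
  have n3 := hf_self_ne p l₃
  have n31 : hf p l₃.1 l₁.1 ≠ 0 := by
    intro h0
    rw [h0, mul_zero] at hm
    exact mul_ne_zero n1 n3 hm.symm
  have e12 := meet p h1 h2
  have e22 := meet p h2 h2
  have n2' : (l₂.1.2 - w.1.2) ^ p ≠ 0 := by
    intro h0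
    rw [h0, mul_zero] at e22
    exact n2 e22
  have e13 := hf_third p (m := l₃) h1
  have e23 := hf_third p (m := l₃) h2
  have key : (l₁.1.2 - w.1.2) * hf p l₂.1 l₃.1 = (l₂.1.2 - w.1.2) * hf p l₁.1 l₃.1 := by
    have g1 : ((l₂.1.2 - w.1.2) ^ p * hf p l₃.1 l₁.1) *
        ((l₁.1.2 - w.1.2) * hf p l₂.1 l₃.1) = ((l₂.1.2 - w.1.2) ^ p * hf p l₃.1 l₁.1) *
        ((l₂.1.2 - w.1.2) * hf p l₁.1 l₃.1) := by
      rw [e12, e22] at h
      linear_combination h - (l₂.1.2 - w.1.2) * (l₂.1.2 - w.1.2) ^ p * hm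
    exact mul_left_cancel₀ (mul_ne_zero n2' n31) g1
  rw [e13, e23] at key
  have key2 : (l₁.1.2 - l₂.1.2) * (l₃.1.1 + l₃.1.2 * w.1.2 ^ p + w.1.1 ^ p) ^ p = 0 := by
    linear_combination key
  rcases mul_eq_zero.1 key2 with g | g
  · exfalso
    apply h12
    have g1 : l₁.1.2 = l₂.1.2 := sub_eq_zero.1 g
    have g2 : l₁.1.1 = l₂.1.1 := by
      unfold inc at h1 h2
      rw [g1] at h1
      linear_combination h1 - h2
    exact Subtype.ext (Prod.ext g2 g1)
  · exact (pow_eq_zero_iff hp).1 g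

/-- Four lines which meet pairwise have three through a common point. -/
theorem onan (l : Fin 4 → Ln p) (hl : Function.Injective l) (w : Fin 4 → Fin 4 → Pt p)
    (h : ∀ i j, i ≠ j → inc p (l i) (w i j) ∧ inc p (l j) (w i j)) :
    ∃ i j k, i ≠ j ∧ i ≠ k ∧ j ≠ k ∧ ∃ v, inc p (l i) v ∧ inc p (l j) v ∧ inc p (l k) v := by
  have key : ∀ i j k : Fin 4, i ≠ j → i ≠ k → j ≠ k →
      hf p (l i).1 (l j).1 * hf p (l j).1 (l k).1 * hf p (l k).1 (l i).1 =
      hf p (l i).1 (l i).1 * hf p (l j).1 (l j).1 * hf p (l k).1 (l k).1 →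
      ∃ i j k, i ≠ j ∧ i ≠ k ∧ j ≠ k ∧ ∃ v, inc p (l i) v ∧ inc p (l j) v ∧ inc p (l k) v := by
    intro i j k hij hik hjk he
    have h1 := h i j hij
    have h2 := h i k hik
    exact ⟨i, j, k, hij, hik, hjk, w i j, h1.1, h1.2,
      conc p (fun e => hij (hl e)) h1.1 h1.2 h2.1 h2.2 he⟩
  rcases onan_alg (F := K p) (fun i => (l i).1.1) (fun i => (l i).1.2) (fun i => (l i).1.1 ^ p)
    (fun i => (l i).1.2 ^ p) (fun i j => hf p (l i).1 (l j).1) (fun i j => rfl)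
    (fun i => hf_self_ne p (l i)) (fun i j => by
      by_cases hij : i = j
      · rw [hij]
      · exact meet_mul p (h i j hij).1 (h i j hij).2) with g | g | g | g
  · exact key 0 1 2 (by decide) (by decide) (by decide) g
  · exact key 0 1 3 (by decide) (by decide) (by decide) g
  · exact key 0 2 3 (by decide) (by decide) (by decide) g
  · exact key 1 2 3 (by decide) (by decide) (by decide) g

theorem gr_cliqueFree (c : Pt p → Ln p → Bool) : (gr (inc p) c).CliqueFree 4 := by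
  by_contra hcf
  obtain ⟨e⟩ : Nonempty ((⊤ : SimpleGraph (Fin 4)) ↪g gr (inc p) c) :=
    ⟨SimpleGraph.topEmbeddingOfNotCliqueFree hcf⟩
  have hadj : ∀ i j : Fin 4, i ≠ j → ∃ w, inc p (e i) w ∧ inc p (e j) w ∧
      c w (e i) ≠ c w (e j) := by
    intro i j hij
    have h1 : (gr (inc p) c).Adj (e i) (e j) := e.map_adj_iff.2 hij
    exact h1.2
  have hw : ∀ i j : Fin 4, ∃ w, i ≠ j → inc p (e i) w ∧ inc p (e j) w ∧
      c w (e i) ≠ c w (e j) := by
    intro i j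
    by_cases hij : i = j
    · obtain ⟨w, -⟩ := hadj 0 1 (by decide)
      exact ⟨w, fun h => absurd hij h⟩
    · obtain ⟨w, hw⟩ := hadj i j hij
      exact ⟨w, fun _ => hw⟩
  choose w hw using hw
  obtain ⟨i, j, k, hij, hik, hjk, v, h1, h2, h3⟩ := onan p (fun i => e i) e.injective w
    fun i j hij => ⟨(hw i j hij).1, (hw i j hij).2.1⟩
  have a1 := hw i j hij
  have a2 := hw i k hik
  have a3 := hw j k hjk
  have b1 : w i j = v := two_lines p (fun h => hij (e.injective h)) a1.1 a1.2.1 h1 h2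
  have b2 : w i k = v := two_lines p (fun h => hik (e.injective h)) a2.1 a2.2.1 h1 h3
  have b3 : w j k = v := two_lines p (fun h => hjk (e.injective h)) a3.1 a3.2.1 h2 h3
  rw [b1] at a1
  rw [b2] at a2
  rw [b3] at a3
  have c1 := a1.2.2
  have c2 := a2.2.2
  have c3 := a3.2.2
  revert c1 c2 c3
  cases c v (e i) <;> cases c v (e j) <;> cases c v (e k) <;> simp

end Pool.Agent.helper80.MV
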